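import Mathlib

/-!
Averaging operators on a finite abelian group and two-component mixtures.
-/

open Finset

namespace Pool.Agent.L5helper97.Cyc

noncomputable section

variable {G : Type*} [AddCommGroup G] [Fintype G] [DecidableEq G]

/-- averaging over the finite set `S` -/
def U (S : Finset G) : Module.End ℝ (G → ℝ) where
  toFun f := fun x => (∑ s ∈ S, f (x + s)) / (S.card : ℝ)
  map_add' f g := by ext x; simp [Finset.sum_add_distrib, add_div]
  map_smul' c f := by
    ext x
    simp only [Pi.smul_apply, smul_eq_mul, RingHom.id_apply]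
    rw [← Finset.mul_sum, mul_div_assoc]

omit [Fintype G] [DecidableEq G] in
theorem U_apply (S : Finset G) (f : G → ℝ) (x : G) :
    U S f x = (∑ s ∈ S, f (x + s)) / (S.card : ℝ) := rfl

/-- the average of `f` over the group -/
def av (f : G → ℝ) : ℝ := (∑ x, f x) / (Fintype.card G : ℝ)

omit [Fintype G] [DecidableEq G] in
theorem U_abs_le (S : Finset G) {f : G → ℝ} {c : ℝ} (hc : 0 ≤ c) (h : ∀ x, |f x| ≤ c) (x : G) :
    |U S f x| ≤ c := by
  rw [U_apply]
  rcases S.eq_empty_or_nonempty with rfl | hS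
  · simpa using hc
  · have h0 : (0 : ℝ) < S.card := by exact_mod_cast hS.card_pos
    rw [abs_div, abs_of_pos h0, div_le_iff₀ h0]
    calc |∑ s ∈ S, f (x + s)| ≤ ∑ s ∈ S, |f (x + s)| := Finset.abs_sum_le_sum_abs _ _
      _ ≤ ∑ _s ∈ S, c := Finset.sum_le_sum fun s _ => h _
      _ = c * S.card := by rw [Finset.sum_const, nsmul_eq_mul]; ring

omit [Fintype G] [DecidableEq G] in
theorem U_pow_abs_le (S : Finset G) {f : G → ℝ} {c : ℝ} (hc : 0 ≤ c) (h : ∀ x, |f x| ≤ c)
    (n : ℕ) (x : G) : |(U S ^ n) f x| ≤ c := by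
  induction n generalizing x with
  | zero => simpa using h x
  | succ n ih =>
    rw [pow_succ', Module.End.mul_apply]
    exact U_abs_le S hc ih x

omit [DecidableEq G] in
theorem av_U (S : Finset G) (hS : S.Nonempty) (f : G → ℝ) : av (U S f) = av f := by
  unfold av
  congr 1
  simp only [U_apply]
  rw [← Finset.sum_div, Finset.sum_comm]
  have : ∀ s ∈ S, ∑ x, f (x + s) = ∑ x, f x := by
    intro s _
    exact Equiv.sum_comp (Equiv.addRight s) f
  rw [Finset.sum_congr rfl this]
  simp only [Finset.sum_const, nsmul_eq_mul]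
  have : (0 : ℝ) < S.card := by exact_mod_cast hS.card_pos
  field_simp

omit [DecidableEq G] in
theorem av_U_pow (S : Finset G) (hS : S.Nonempty) (f : G → ℝ) (n : ℕ) :
    av ((U S ^ n) f) = av f := by
  induction n with
  | zero => simp
  | succ n ih => rw [pow_succ', Module.End.mul_apply, av_U S hS, ih]

omit [DecidableEq G] in
theorem av_abs_le {f : G → ℝ} {c : ℝ} (h : ∀ x, |f x| ≤ c) : |av f| ≤ c := by
  have h0 : (0 : ℝ) < Fintype.card G := by exact_mod_cast Fintype.card_pos
  unfold av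
  rw [abs_div, abs_of_pos h0, div_le_iff₀ h0]
  calc |∑ s, f s| ≤ ∑ s, |f s| := Finset.abs_sum_le_sum_abs _ _
    _ ≤ ∑ _s : G, c := Finset.sum_le_sum fun s _ => h _
    _ = c * Fintype.card G := by rw [Finset.sum_const, nsmul_eq_mul]; simp [mul_comm]

omit [Fintype G] [DecidableEq G] in
theorem U_comm (S T : Finset G) : U S * U T = U T * U S := by
  ext f x
  rw [Module.End.mul_apply, Module.End.mul_apply, U_apply, U_apply]
  simp only [U_apply]
  rw [← Finset.sum_div, ← Finset.sum_div, Finset.sum_comm, div_div, div_div, mul_comm (T.card : ℝ)]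
  congr 1
  refine Finset.sum_congr rfl fun s _ => Finset.sum_congr rfl fun t _ => ?_
  congr 1
  abel

omit [Fintype G] in
/-- Averages over a set and over a large subset are close. -/
theorem avg_sub_le {T : Finset G} {S : Finset G} (hST : S ⊆ T) (hS : S.Nonempty) (f : G → ℝ)
    (hf : ∀ x, |f x| ≤ 1) (x : G) :
    |U S f x - U T f x| ≤ 2 * ((T.card : ℝ) - S.card) / T.card := by
  have hS0 : (0 : ℝ) < S.card := by exact_mod_cast hS.card_pos
  have hT0 : (0 : ℝ) < T.card := by exact_mod_cast (hS.mono hST).card_pos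
  have hle : (S.card : ℝ) ≤ T.card := by exact_mod_cast Finset.card_le_card hST
  have hsplit : ∑ s ∈ T, f (x + s) = ∑ s ∈ T \ S, f (x + s) + ∑ s ∈ S, f (x + s) :=
    (Finset.sum_sdiff hST).symm
  have h1 : |∑ s ∈ T \ S, f (x + s)| ≤ (T.card : ℝ) - S.card := by
    calc |∑ s ∈ T \ S, f (x + s)| ≤ ∑ s ∈ T \ S, |f (x + s)| := Finset.abs_sum_le_sum_abs _ _
      _ ≤ ∑ _s ∈ T \ S, (1 : ℝ) := Finset.sum_le_sum fun s _ => hf _
      _ = (T.card : ℝ) - S.card := by
        rw [Finset.sum_const, nsmul_eq_mul, mul_one, Finset.card_sdiff_of_subset hST,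
          Nat.cast_sub (Finset.card_le_card hST)]
  have h2 : |∑ s ∈ S, f (x + s)| ≤ S.card := by
    calc |∑ s ∈ S, f (x + s)| ≤ ∑ s ∈ S, |f (x + s)| := Finset.abs_sum_le_sum_abs _ _
      _ ≤ ∑ _s ∈ S, (1 : ℝ) := Finset.sum_le_sum fun s _ => hf _
      _ = S.card := by simp
  rw [U_apply, U_apply, hsplit]
  set a := ∑ s ∈ T \ S, f (x + s)
  set b := ∑ s ∈ S, f (x + s)
  have e : b / (S.card : ℝ) - (a + b) / (T.card : ℝ) =
      (b * (((T.card : ℝ) - S.card) / S.card) - a) / T.card := by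
    field_simp
    ring
  rw [e, abs_div, abs_of_pos hT0]
  gcongr
  calc |b * (((T.card : ℝ) - S.card) / S.card) - a|
      ≤ |b * (((T.card : ℝ) - S.card) / S.card)| + |a| := abs_sub _ _
    _ ≤ (S.card : ℝ) * (((T.card : ℝ) - S.card) / S.card) + ((T.card : ℝ) - S.card) := by
        rw [abs_mul, abs_of_nonneg (a := ((T.card : ℝ) - S.card) / S.card)
          (div_nonneg (by linarith) hS0.le)]
        gcongr
    _ = 2 * ((T.card : ℝ) - S.card) := by field_simp; ring

omit [DecidableEq G] in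
theorem U_univ (f : G → ℝ) (x : G) : U (univ : Finset G) f x = av f := by
  rw [U_apply, av, Finset.card_univ]
  congr 1
  exact Equiv.sum_comp (Equiv.addLeft x) f

omit [DecidableEq G] in
/-- The two-component estimate. `e` bounds the distance between `U S₁ U S₂` and the uniform
average. -/
theorem mixture (S₁ S₂ : Finset G) (h1 : S₁.Nonempty) (h2 : S₂.Nonempty) (w₁ w₂ : ℝ)
    (hw1 : 0 ≤ w₁) (hw2 : 0 ≤ w₂) (hw : w₁ + w₂ = 1) (e : ℝ)
    (he : ∀ f : G → ℝ, (∀ x, |f x| ≤ 1) → ∀ x, |(U S₁ * U S₂) f x - av f| ≤ e)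
    (W : Module.End ℝ (G → ℝ)) (hW : W = w₁ • U S₁ + w₂ • U S₂) (f : G → ℝ)
    (hf : ∀ x, |f x| ≤ 1) (t : ℕ) (x : G) :
    |(W ^ (t + 1)) f x - av f - w₁ ^ (t + 1) * ((U S₁ ^ (t + 1)) f x - av f)
      - w₂ ^ (t + 1) * ((U S₂ ^ (t + 1)) f x - av f)| ≤ e * (1 - w₁ ^ (t + 1) - w₂ ^ (t + 1)) := by
  have he0 : 0 ≤ e := (abs_nonneg _).trans (he f hf x)
  induction t generalizing x with
  | zero =>
    simp only [zero_add, pow_one]
    have : W f x = w₁ * U S₁ f x + w₂ * U S₂ f x := by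
      rw [hW]; rfl
    rw [this]
    have e1 : w₁ * U S₁ f x + w₂ * U S₂ f x - av f - w₁ * (U S₁ f x - av f)
        - w₂ * (U S₂ f x - av f) = (w₁ + w₂ - 1) * av f := by ring
    rw [e1, hw, sub_self, zero_mul, abs_zero]
    have : 1 - w₁ - w₂ = 0 := by linarith
    rw [this, mul_zero]
  | succ t ih =>
    -- the error function
    set g : G → ℝ := (W ^ (t + 1)) f with hg
    set p : G → ℝ := (U S₁ ^ (t + 1)) f with hp
    set q : G → ℝ := (U S₂ ^ (t + 1)) f with hq
    set c : ℝ := w₁ ^ (t + 1) with hc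
    set d : ℝ := w₂ ^ (t + 1) with hd
    have hc0 : 0 ≤ c := pow_nonneg hw1 _
    have hd0 : 0 ≤ d := pow_nonneg hw2 _
    let δ : G → ℝ := fun x => g x - av f - c * (p x - av f) - d * (q x - av f)
    have hδ : ∀ x, |δ x| ≤ e * (1 - c - d) := fun x => ih x
    have hcd : 0 ≤ e * (1 - c - d) := (abs_nonneg _).trans (hδ x)
    have hWδ : |W δ x| ≤ e * (1 - c - d) := by
      have : W δ x = w₁ * U S₁ δ x + w₂ * U S₂ δ x := by rw [hW]; rfl
      rw [this]
      have a1 := U_abs_le S₁ hcd hδ x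
      have a2 := U_abs_le S₂ hcd hδ x
      calc |w₁ * U S₁ δ x + w₂ * U S₂ δ x| ≤ |w₁ * U S₁ δ x| + |w₂ * U S₂ δ x| := abs_add_le _ _
        _ = w₁ * |U S₁ δ x| + w₂ * |U S₂ δ x| := by
          rw [abs_mul, abs_mul, abs_of_nonneg hw1, abs_of_nonneg hw2]
        _ ≤ w₁ * (e * (1 - c - d)) + w₂ * (e * (1 - c - d)) := by gcongr
        _ = e * (1 - c - d) := by rw [← add_mul, hw, one_mul]
    -- expand
    have hconst : ∀ (S : Finset G), S.Nonempty → ∀ a : ℝ, ∀ x, U S (fun _ => a) x = a := by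
      intro S hS a x
      rw [U_apply]
      simp only [Finset.sum_const, nsmul_eq_mul]
      have : (0 : ℝ) < S.card := by exact_mod_cast hS.card_pos
      field_simp
    have hgdecomp : g = δ + (fun _ => av f * (1 - c - d)) + c • p + d • q := by
      ext y
      simp only [δ, Pi.add_apply, Pi.smul_apply, smul_eq_mul]
      ring
    have hWg : W g x = W δ x + av f * (1 - c - d)
        + c * (w₁ * U S₁ p x + w₂ * U S₂ p x) + d * (w₁ * U S₁ q x + w₂ * U S₂ q x) := by
      have hWc : W (fun _ => av f * (1 - c - d)) x = av f * (1 - c - d) := by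
        rw [hW]
        simp only [LinearMap.add_apply, LinearMap.smul_apply, Pi.add_apply, Pi.smul_apply,
          smul_eq_mul]
        rw [hconst S₁ h1, hconst S₂ h2, ← add_mul, hw, one_mul]
      have hWp : ∀ r : G → ℝ, W r x = w₁ * U S₁ r x + w₂ * U S₂ r x := by
        intro r; rw [hW]; rfl
      rw [← hWp p, ← hWp q, ← hWc]
      conv_lhs => rw [hgdecomp]
      rw [map_add, map_add, map_add, map_smul, map_smul]
      rfl
    have hstep : (W ^ (t + 1 + 1)) f = W g := by
      rw [pow_succ', Module.End.mul_apply]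
    have hp' : (U S₁ ^ (t + 1 + 1)) f = U S₁ p := by
      rw [pow_succ', Module.End.mul_apply]
    have hq' : (U S₂ ^ (t + 1 + 1)) f = U S₂ q := by
      rw [pow_succ', Module.End.mul_apply]
    have hpm : |U S₂ p x - av f| ≤ e := by
      have h3 : U S₂ p = (U S₁ * U S₂) ((U S₁ ^ t) f) := by
        rw [hp, U_comm, pow_succ', Module.End.mul_apply, Module.End.mul_apply]
      have h4 := he ((U S₁ ^ t) f) (U_pow_abs_le S₁ zero_le_one hf t) x
      rw [av_U_pow S₁ h1] at h4
      rw [h3]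
      exact h4
    have hqm : |U S₁ q x - av f| ≤ e := by
      have h3 : U S₁ q = (U S₁ * U S₂) ((U S₂ ^ t) f) := by
        rw [hq, pow_succ', Module.End.mul_apply, Module.End.mul_apply]
      have h4 := he ((U S₂ ^ t) f) (U_pow_abs_le S₂ zero_le_one hf t) x
      rw [av_U_pow S₂ h2] at h4
      rw [h3]
      exact h4
    rw [hstep, hp', hq', hWg, pow_succ w₁, pow_succ w₂, ← hc, ← hd]
    have e2 : W δ x + av f * (1 - c - d)
        + c * (w₁ * U S₁ p x + w₂ * U S₂ p x) + d * (w₁ * U S₁ q x + w₂ * U S₂ q x) - av f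
        - c * w₁ * (U S₁ p x - av f) - d * w₂ * (U S₂ q x - av f)
        = W δ x + c * w₂ * (U S₂ p x - av f) + d * w₁ * (U S₁ q x - av f) := by
      have hw1' : w₁ = 1 - w₂ := by linarith
      rw [hw1']
      ring
    rw [e2]
    calc |W δ x + c * w₂ * (U S₂ p x - av f) + d * w₁ * (U S₁ q x - av f)|
        ≤ |W δ x + c * w₂ * (U S₂ p x - av f)| + |d * w₁ * (U S₁ q x - av f)| := abs_add_le _ _
      _ ≤ |W δ x| + |c * w₂ * (U S₂ p x - av f)| + |d * w₁ * (U S₁ q x - av f)| := by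
          gcongr; exact abs_add_le _ _
      _ = |W δ x| + c * w₂ * |U S₂ p x - av f| + d * w₁ * |U S₁ q x - av f| := by
          rw [abs_mul (c * w₂), abs_mul (d * w₁), abs_of_nonneg (mul_nonneg hc0 hw2),
            abs_of_nonneg (mul_nonneg hd0 hw1)]
      _ ≤ e * (1 - c - d) + c * w₂ * e + d * w₁ * e := by gcongr
      _ = e * (1 - c * w₁ - d * w₂) := by
          have hw1' : w₁ = 1 - w₂ := by linarith
          rw [hw1']; ring

end

end Pool.Agent.L5helper97.Cyc
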