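import Mathlib

/-!
Convolution walks on the cycle `ℤ/n`: total variation mixing times, relaxation time, ergodicity,
cutoff.
-/

open Finset Filter Topology

namespace Pool.Agent.L5helper97.Cyc

noncomputable section

/-- The `t`-fold convolution power `μ^{*t}` of a function on `ℤ/n`: `μ^{*0}` is the point mass at
`0` and `μ^{*(t+1)}(y) = ∑_x μ^{*t}(x) μ(y - x)`. -/
def convPow {n : ℕ} [NeZero n] (μ : ZMod n → ℝ) : ℕ → ZMod n → ℝ
  | 0 => fun y => if y = 0 then 1 else 0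
  | t + 1 => fun y => ∑ x, convPow μ t x * μ (y - x)

/-- Total variation distance of `μ^{*t}` to the uniform law on `ℤ/n`. -/
def dTV {n : ℕ} [NeZero n] (μ : ZMod n → ℝ) (t : ℕ) : ℝ :=
  (1 / 2 : ℝ) * ∑ y, |convPow μ t y - 1 / (n : ℝ)|

/-- `T_mix(ε) = min {t : ‖μ^{*t} - π‖_TV ≤ ε}`. -/
def tmix {n : ℕ} [NeZero n] (μ : ZMod n → ℝ) (ε : ℝ) : ℕ :=
  sInf {t : ℕ | dTV μ t ≤ ε}

/-- The eigenvalue `μ̂(j) = ∑_x μ(x) exp(2π i j x / n)` of the convolution walk. -/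
def eig {n : ℕ} [NeZero n] (μ : ZMod n → ℝ) (j : ZMod n) : ℂ :=
  ∑ x, (μ x : ℂ) * Complex.exp (2 * Real.pi * Complex.I * ((j.val : ℂ) * (x.val : ℂ)) / (n : ℂ))

/-- The spectral gap `γ = 1 - max_{j ≠ 0} |μ̂(j)|`. -/
def gap {n : ℕ} [NeZero n] (μ : ZMod n → ℝ) : ℝ :=
  1 - ⨆ j : {j : ZMod n // j ≠ 0}, ‖eig μ j‖

/-- `T_rel = 1 / γ`. -/
def trel {n : ℕ} [NeZero n] (μ : ZMod n → ℝ) : ℝ := 1 / gap μ

/-- The walk driven by `μ` is ergodic: the support of `μ` is not contained in a coset `a + H` of a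
proper subgroup `H` of `ℤ/n`. -/
def Ergodic {n : ℕ} (μ : ZMod n → ℝ) : Prop :=
  ∀ (H : AddSubgroup (ZMod n)) (a : ZMod n), (∀ x, μ x ≠ 0 → x - a ∈ H) → H = ⊤

/-- The uniform distribution on the set `S`. -/
def unifOn {n : ℕ} (S : Finset (ZMod n)) (x : ZMod n) : ℝ :=
  if x ∈ S then 1 / (S.card : ℝ) else 0

/-- Total variation cutoff for the sequence of walks driven by the `μ k`. -/
def HasCutoff {N : ℕ → ℕ} [∀ k, NeZero (N k)] (μ : ∀ k, ZMod (N k) → ℝ) : Prop :=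
  ∀ ε : ℝ, 0 < ε → ε < 1 / 2 →
    Tendsto (fun k => (tmix (μ k) ε : ℝ) / (tmix (μ k) (1 - ε) : ℝ)) atTop (𝓝 1)

end

end Pool.Agent.L5helper97.Cyc
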