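import Mathlib

/-!
From the limit profile `e^{-s}` to the asymptotics of the mixing times.
-/

open Filter Topology

namespace Pool.Agent.L5helper97.Cyc

theorem pow_floor_lim {T : ℕ → ℝ} (hT : Tendsto T atTop atTop) {s : ℝ} (hs : 0 ≤ s) :
    Tendsto (fun n => (1 - 1 / T n) ^ ⌊s * T n⌋₊) atTop (𝓝 (Real.exp (-s))) := by
  have h1 : Tendsto (fun n => T n * Real.log (1 + (-1) / T n)) atTop (𝓝 (-1)) :=
    (Real.tendsto_mul_log_one_add_div_atTop (-1)).comp hT
  have h2 : Tendsto (fun n => (⌊s * T n⌋₊ : ℝ) / T n) atTop (𝓝 s) :=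
    (tendsto_nat_floor_mul_div_atTop hs).comp hT
  have h4 : Tendsto (fun n => Real.exp ((⌊s * T n⌋₊ : ℝ) / T n * (T n * Real.log (1 + (-1) / T n))))
      atTop (𝓝 (Real.exp (s * (-1)))) := (Real.continuous_exp.tendsto _).comp (h2.mul h1)
  have e : s * (-1) = -s := by ring
  rw [e] at h4
  refine h4.congr' ?_
  filter_upwards [hT.eventually_ge_atTop 2] with n hn
  have ht : T n ≠ 0 := by linarith
  have hpos : 0 < 1 - 1 / T n := by
    rw [sub_pos, div_lt_one (by linarith)]; linarith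
  have h5 : (⌊s * T n⌋₊ : ℝ) / T n * (T n * Real.log (1 + (-1) / T n)) =
      ⌊s * T n⌋₊ * Real.log (1 - 1 / T n) := by
    have : (1 : ℝ) + (-1) / T n = 1 - 1 / T n := by ring
    rw [this]
    field_simp
  rw [h5, mul_comm, Real.exp_mul, Real.exp_log hpos, Real.rpow_natCast]

theorem mixing {d : ℕ → ℕ → ℝ} {T : ℕ → ℝ} (hT : Tendsto T atTop atTop)
    (hmono : ∀ n, Antitone (d n))
    (hprof : ∀ s : ℝ, 0 ≤ s → Tendsto (fun n => d n ⌊s * T n⌋₊) atTop (𝓝 (Real.exp (-s))))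
    {ε : ℝ} (h0 : 0 < ε) (h1 : ε < 1) :
    Tendsto (fun n => ((sInf {k : ℕ | d n k ≤ ε} : ℕ) : ℝ) / T n) atTop
      (𝓝 (Real.log (1 / ε))) := by
  have hL : Real.log (1 / ε) = -Real.log ε := by rw [one_div, Real.log_inv]
  have hLpos : 0 < -Real.log ε := by
    have := Real.log_neg h0 h1
    linarith
  have hup : ∀ b : ℝ, -Real.log ε < b → ∀ᶠ n in atTop, ({k : ℕ | d n k ≤ ε}).Nonempty ∧
      ((sInf {k : ℕ | d n k ≤ ε} : ℕ) : ℝ) ≤ b * T n := by
    intro b hb
    have hb' : Real.exp (-b) < ε := by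
      rw [← Real.exp_log h0]
      exact Real.exp_lt_exp.mpr (by linarith)
    filter_upwards [(hprof b (by linarith)).eventually (gt_mem_nhds hb'),
      hT.eventually_ge_atTop 0] with n hn hTn
    have h3 : ⌊b * T n⌋₊ ∈ {k : ℕ | d n k ≤ ε} := le_of_lt hn
    refine ⟨⟨_, h3⟩, ?_⟩
    have h4 : (⌊b * T n⌋₊ : ℝ) ≤ b * T n := Nat.floor_le (mul_nonneg (by linarith) hTn)
    exact (Nat.cast_le.mpr (Nat.sInf_le h3)).trans h4
  rw [hL]
  refine tendsto_order.2 ⟨fun a ha => ?_, fun b hb => ?_⟩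
  · by_cases ha0 : a < 0
    · filter_upwards [hT.eventually_gt_atTop 0] with n hn
      exact lt_of_lt_of_le ha0 (div_nonneg (Nat.cast_nonneg _) hn.le)
    · push Not at ha0
      have ha' : ε < Real.exp (-a) := by
        rw [← Real.exp_log h0]
        exact Real.exp_lt_exp.mpr (by linarith)
      filter_upwards [(hprof a ha0).eventually (lt_mem_nhds ha'), hT.eventually_gt_atTop 0,
        hup (-Real.log ε + 1) (by linarith)] with n hn hTn hne
      rw [lt_div_iff₀ hTn]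
      have hmem := Nat.sInf_mem hne.1
      have h5 : ⌊a * T n⌋₊ < sInf {k : ℕ | d n k ≤ ε} := by
        by_contra hcon
        push Not at hcon
        have h6 := hmono n hcon
        have h7 : d n (sInf {k : ℕ | d n k ≤ ε}) ≤ ε := hmem
        linarith
      exact (Nat.floor_lt (mul_nonneg ha0 hTn.le)).mp h5
  · obtain ⟨b', hb1, hb2⟩ := exists_between hb
    filter_upwards [hup b' hb1, hT.eventually_gt_atTop 0] with n hn hTn
    rw [div_lt_iff₀ hTn]
    exact hn.2.trans_lt (by gcongr)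

theorem ratio {d : ℕ → ℕ → ℝ} {T : ℕ → ℝ} (hT : Tendsto T atTop atTop)
    (hmono : ∀ n, Antitone (d n))
    (hprof : ∀ s : ℝ, 0 ≤ s → Tendsto (fun n => d n ⌊s * T n⌋₊) atTop (𝓝 (Real.exp (-s))))
    {ε δ : ℝ} (h0 : 0 < ε) (h1 : ε < 1) (h2 : 0 < δ) (h3 : δ < 1) :
    Tendsto (fun n => ((sInf {k : ℕ | d n k ≤ ε} : ℕ) : ℝ) / ((sInf {k : ℕ | d n k ≤ δ} : ℕ) : ℝ))
      atTop (𝓝 (Real.log (1 / ε) / Real.log (1 / δ))) := by
  have hpos : Real.log (1 / δ) ≠ 0 := by
    have := Real.log_neg h2 h3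
    rw [one_div, Real.log_inv]
    linarith
  have h4 := (mixing hT hmono hprof h0 h1).div (mixing hT hmono hprof h2 h3) hpos
  refine h4.congr' ?_
  filter_upwards [hT.eventually_gt_atTop 0] with n hn
  simp only [Pi.div_apply]
  rw [div_div_div_cancel_right₀ hn.ne']

theorem log_ratio_gt {ε : ℝ} (h0 : 0 < ε) (h1 : ε < 1 / 2) :
    1 < Real.log (1 / ε) / Real.log (1 / (1 - ε)) := by
  have h2 : 0 < Real.log (1 / (1 - ε)) := by
    apply Real.log_pos
    rw [lt_div_iff₀ (by linarith)]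
    linarith
  rw [lt_div_iff₀ h2, one_mul]
  apply Real.log_lt_log
  · apply one_div_pos.mpr; linarith
  · apply one_div_lt_one_div_of_lt h0
    linarith

end Pool.Agent.L5helper97.Cyc
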