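import Pool.Agent.L5helper97.Cyc.Walk
import Pool.Agent.L5helper97.Cyc.Lim

/-!
Choice of the parameters.
-/

open Finset Filter Topology

namespace Pool.Agent.L5helper97.Cyc

noncomputable section

theorem exists_walk_r (n : ℕ) [NeZero n] (r : ℝ) (hr : 10 ≤ r) (hn : (n : ℝ) = Real.exp (r ^ 4))
    (hE : 10 ^ 6 * r ^ 10 ≤ Real.exp (r ^ 4 / 2)) :
    ∃ (S : Finset (ZMod n)) (T : ℝ), S.Nonempty ∧ (∀ x ∈ S, -x ∈ S) ∧ 0 ∉ S ∧
      Ergodic (unifOn S) ∧ 0 < trel (unifOn S) ∧ trel (unifOn S) ≤ 4 ∧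
      32 * r ^ 2 ≤ T ∧ T ≤ 1225 * r ^ 2 ∧
      (∀ t : ℕ, (1 - 1 / T) ^ t - (34 * r ^ 4) ^ t * (2 * t + 1) / Real.exp (r ^ 4 / 2) ≤
        dTV (unifOn S) t) ∧
      (∀ t : ℕ, 1 ≤ t → dTV (unifOn S) t ≤ (1 - 1 / T) ^ t + (1 / T) ^ t + 1 / r) := by
  set E : ℝ := Real.exp (r ^ 4 / 2) with hEdef
  have hEpos : 0 < E := Real.exp_pos _
  have hnE : (n : ℝ) = E ^ 2 := by
    rw [hn, hEdef, ← Real.exp_nat_mul]; congr 1; push_cast; ring
  have hr0 : (0 : ℝ) < r := by linarith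
  have hr1 : (1 : ℝ) ≤ r := by linarith
  have p2 : (100 : ℝ) ≤ r ^ 2 := by nlinarith
  have p4 : (1 : ℝ) ≤ r ^ 4 := one_le_pow₀ hr1
  have hE1 : (10 : ℝ) ^ 6 * r ^ 4 ≤ E := by
    refine le_trans ?_ hE
    have : r ^ 4 ≤ r ^ 10 := pow_le_pow_right₀ hr1 (by norm_num)
    linarith
  have hE2 : (10 : ℝ) ^ 6 * r ^ 3 ≤ E := by
    refine le_trans ?_ hE
    have : r ^ 3 ≤ r ^ 10 := pow_le_pow_right₀ hr1 (by norm_num)
    linarith
  have hE9 : (10 : ℝ) ^ 6 * r ^ 9 ≤ E := by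
    refine le_trans ?_ hE
    have : r ^ 9 ≤ r ^ 10 := pow_le_pow_right₀ hr1 (by norm_num)
    linarith
  have hEr : (10 : ℝ) ^ 6 * r ≤ E := by
    refine le_trans ?_ hE
    have : r ≤ r ^ 10 := le_self_pow₀ hr1 (by norm_num)
    linarith
  have hE0 : (10 : ℝ) ^ 6 ≤ E := by nlinarith
  -- k
  set k : ℕ := ⌈16 * r ^ 4⌉₊ with hk
  have hk1 : 16 * r ^ 4 ≤ k := Nat.le_ceil _
  have hk2 : (k : ℝ) ≤ 17 * r ^ 4 := by
    have := Nat.ceil_lt_add_one (show (0 : ℝ) ≤ 16 * r ^ 4 by positivity)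
    rw [← hk] at this
    linarith
  -- h
  set h : ℕ := ⌊E / r⌋₊ with hh
  have hEr0 : 0 ≤ E / r := by positivity
  have hh1 : (h : ℝ) ≤ E / r := Nat.floor_le hEr0
  have hh2 : E / r < h + 1 := Nat.lt_floor_add_one _
  have hX : (10 : ℝ) ^ 6 ≤ E / r := by
    rw [le_div_iff₀ hr0]; exact hEr
  set X : ℝ := E / r with hXdef
  have hm1 : X ≤ 2 * h + 1 := by linarith [show (0 : ℝ) ≤ h from Nat.cast_nonneg h]
  have hm2 : (2 * h + 1 : ℝ) ≤ 3 * X := by linarith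
  -- Q
  set m : ℕ := 2 * h + 1 with hm
  have hmr : (m : ℝ) = 2 * h + 1 := by rw [hm]; push_cast; ring
  set Q : ℕ := (n / m - 1) / 2 with hQ
  set Y : ℝ := E * r with hYdef
  have hXY : X * Y = E ^ 2 := by rw [hXdef, hYdef]; field_simp
  have hmpos : (0 : ℝ) < m := by rw [hmr]; positivity
  have hXpos : 0 < X := by linarith
  have hYpos : 0 < Y := by positivity
  have hYbig : (10 : ℝ) ^ 6 * r ^ 4 ≤ Y := by
    calc (10 : ℝ) ^ 6 * r ^ 4 ≤ E := hE1
      _ = E * 1 := by ring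
      _ ≤ E * r := by gcongr
  have hnm1 : (n : ℝ) / m ≤ Y := by
    rw [div_le_iff₀ hmpos, hnE, ← hXY, hmr, mul_comm]
    gcongr
  have hnm2 : Y / 3 ≤ (n : ℝ) / m := by
    rw [le_div_iff₀ hmpos, hnE, ← hXY, hmr]
    nlinarith
  have hq1 : ((n / m : ℕ) : ℝ) ≤ (n : ℝ) / m := Nat.cast_div_le
  have hq2 : (n : ℝ) / m < ((n / m : ℕ) : ℝ) + 1 := by
    rw [div_lt_iff₀ hmpos]
    have := Nat.lt_mul_div_succ n (show 0 < m by omega)
    have h3 : (n : ℝ) < ((m * (n / m + 1) : ℕ) : ℝ) := by exact_mod_cast this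
    push_cast at h3
    linarith
  have hY3 : (18 : ℝ) ≤ Y := by nlinarith
  have hq3 : 3 ≤ n / m := by
    have : (3 : ℝ) < ((n / m : ℕ) : ℝ) + 1 := by linarith
    have h4 : (3 : ℕ) < n / m + 1 := by exact_mod_cast this
    omega
  have hQ1 : 2 * Q + 1 ≤ n / m := by omega
  have hQ2 : n / m ≤ 2 * Q + 2 := by omega
  have hQ1r : (2 * Q + 1 : ℝ) ≤ (n : ℝ) / m := by
    have : ((2 * Q + 1 : ℕ) : ℝ) ≤ ((n / m : ℕ) : ℝ) := by exact_mod_cast hQ1
    push_cast at this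
    linarith
  have hQ2r : (n : ℝ) / m - 2 ≤ (2 * Q + 1 : ℝ) := by
    have : ((n / m : ℕ) : ℝ) ≤ ((2 * Q + 2 : ℕ) : ℝ) := by exact_mod_cast hQ2
    push_cast at this
    linarith
  have hQY : Y / 6 ≤ (2 * Q + 1 : ℝ) := by linarith
  have hQk : Y / 24 ≤ (Q : ℝ) - k := by
    have h5 : 17 * r ^ 4 ≤ Y / 100 := by nlinarith [p4]
    linarith
  have hkQ : k < Q := by
    have : (k : ℝ) < Q := by linarith
    exact_mod_cast this
  have hkpos : 1 ≤ k := by
    have : (1 : ℝ) ≤ k := by linarith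
    exact_mod_cast this
  have hhpos : 1 ≤ h := by
    have : (1 : ℝ) ≤ h := by linarith
    exact_mod_cast this
  have hmn : (2 * Q + 1) * (2 * h + 1) ≤ n := by
    calc (2 * Q + 1) * (2 * h + 1) ≤ (n / m) * m := by gcongr
      _ ≤ n := Nat.div_mul_le_self n m
  have hnpos : (0 : ℝ) < n := by rw [hnE]; positivity
  -- the smallness condition
  have hsmall : 2 * (n : ℝ) * Real.exp (-(k : ℝ) / 8) +
      (3 * (k : ℝ) ^ 2 * (4 * h + 1) + k * (2 * h + 1)) / n < 1 := by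
    have s1 : 2 * (n : ℝ) * Real.exp (-(k : ℝ) / 8) ≤ 1 / 4 := by
      have s2 : Real.exp (-(k : ℝ) / 8) ≤ Real.exp (-(2 * r ^ 4)) := by
        apply Real.exp_le_exp.mpr
        linarith
      calc 2 * (n : ℝ) * Real.exp (-(k : ℝ) / 8) ≤ 2 * (n : ℝ) * Real.exp (-(2 * r ^ 4)) := by gcongr
        _ = 2 * Real.exp (-(r ^ 4)) := by
            rw [hn, mul_assoc, ← Real.exp_add]; congr 2; ring
        _ ≤ 2 * (1 / 8) := by
            gcongr
            rw [Real.exp_neg, ← one_div]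
            apply one_div_le_one_div_of_le (by norm_num)
            have := Real.add_one_le_exp (r ^ 4)
            have : (100 : ℝ) ≤ r ^ 4 := by nlinarith
            linarith
        _ = 1 / 4 := by norm_num
    have s3 : (3 * (k : ℝ) ^ 2 * (4 * h + 1) + k * (2 * h + 1)) / n ≤ 1 / 4 := by
      rw [div_le_iff₀ hnpos]
      have a1 : (4 * h + 1 : ℝ) ≤ 6 * X := by linarith
      have a2 : (k : ℝ) ^ 2 ≤ 289 * r ^ 8 := by
        calc (k : ℝ) ^ 2 ≤ (17 * r ^ 4) ^ 2 := by gcongr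
          _ = 289 * r ^ 8 := by ring
      have a3 : 3 * (k : ℝ) ^ 2 * (4 * h + 1) ≤ 5202 * r ^ 8 * X := by
        calc 3 * (k : ℝ) ^ 2 * (4 * h + 1) ≤ 3 * (289 * r ^ 8) * (6 * X) := by gcongr
          _ = 5202 * r ^ 8 * X := by ring
      have a4 : (k : ℝ) * (2 * h + 1) ≤ 51 * r ^ 4 * X := by
        calc (k : ℝ) * (2 * h + 1) ≤ (17 * r ^ 4) * (3 * X) := by gcongr
          _ = 51 * r ^ 4 * X := by ring
      have a5 : r ^ 4 ≤ r ^ 8 := pow_le_pow_right₀ hr1 (by norm_num)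
      have a6 : 51 * r ^ 4 * X ≤ 51 * r ^ 8 * X := by gcongr
      have a7 : 5253 * r ^ 8 * X ≤ 1 / 4 * E ^ 2 := by
        rw [← hXY]
        have a8 : 5253 * r ^ 8 ≤ 1 / 4 * Y := by
          have : r ^ 8 ≤ r ^ 9 := pow_le_pow_right₀ hr1 (by norm_num)
          have : E ≤ Y := by
            calc E = E * 1 := by ring
              _ ≤ E * r := by gcongr
          have : (0 : ℝ) ≤ r ^ 9 := by positivity
          linarith
        calc 5253 * r ^ 8 * X ≤ (1 / 4 * Y) * X := by gcongr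
          _ = _ := by ring
      rw [hnE]
      linarith
    linarith
  have hw : 3 * (2 * Q + 1) ≤ 2 * k * (2 * h + 1) := by
    have b1 : (3 * (2 * Q + 1) : ℝ) ≤ 2 * k * (2 * h + 1) := by
      calc (3 * (2 * Q + 1) : ℝ) ≤ 3 * Y := by linarith
        _ = 3 * r ^ 2 * X := by rw [hXdef, hYdef]; field_simp
        _ ≤ 32 * r ^ 4 * X := by
            have : r ^ 2 ≤ r ^ 4 := pow_le_pow_right₀ hr1 (by norm_num)
            have : 3 * r ^ 2 ≤ 32 * r ^ 4 := by nlinarith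
            gcongr
        _ = 2 * (16 * r ^ 4) * X := by ring
        _ ≤ 2 * k * (2 * h + 1) := by gcongr
    exact_mod_cast b1
  obtain ⟨S, T, q1, q2, q3, q4, q5, q6, q7, q8, q9, q10⟩ :=
    exists_walk (n := n) k h Q hkpos hhpos hmn hkQ hsmall hw
  have hQpos : (0 : ℝ) < 2 * Q + 1 := by positivity
  refine ⟨S, T, q1, q2, q3, q4, q5, q6, ?_, ?_, ?_, ?_⟩
  · refine le_trans ?_ q7
    rw [le_div_iff₀ hQpos]
    calc 32 * r ^ 2 * (2 * Q + 1 : ℝ) ≤ 32 * r ^ 2 * Y := by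
          gcongr; linarith
      _ = 2 * (16 * r ^ 4) * X := by rw [hXdef, hYdef]; field_simp; ring
      _ ≤ 2 * k * (2 * h + 1) := by gcongr
  · refine q8.trans ?_
    have c1 : (2 * k * (2 * h + 1) : ℝ) / (2 * (Q - k)) ≤ 1224 * r ^ 2 := by
      rw [div_le_iff₀ (by linarith)]
      calc (2 * k * (2 * h + 1) : ℝ) ≤ 2 * (17 * r ^ 4) * (3 * X) := by gcongr
        _ = 1224 * r ^ 2 * (2 * (Y / 24)) := by rw [hXdef, hYdef]; field_simp; ring
        _ ≤ 1224 * r ^ 2 * (2 * (Q - k)) := by gcongr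
    linarith
  · intro t
    refine le_trans ?_ (q9 t)
    apply sub_le_sub_left
    have d1 : (2 * k : ℝ) ^ t ≤ (34 * r ^ 4) ^ t :=
      pow_le_pow_left₀ (by positivity) (by linarith) t
    have d2 : (2 * (t * h) + 1 : ℝ) ≤ (2 * t + 1) * E := by
      have e1 : (h : ℝ) ≤ E := by
        refine hh1.trans ?_
        rw [hXdef]
        exact div_le_self hEpos.le hr1
      have e2 : (1 : ℝ) ≤ E := by linarith
      have e3 : (t : ℝ) * h ≤ t * E := by gcongr
      linarith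
    calc (2 * k : ℝ) ^ t * (2 * (t * h) + 1) / n
        ≤ (34 * r ^ 4) ^ t * ((2 * t + 1) * E) / n := by gcongr
      _ = (34 * r ^ 4) ^ t * (2 * t + 1) / E := by
          rw [hnE]; field_simp
  · intro t ht
    refine (q10 t ht).trans ?_
    have f1 : (2 * k + 1 : ℝ) / (2 * Q + 1) ≤ 1 / (2 * r) := by
      rw [div_le_div_iff₀ hQpos (by positivity)]
      have g1 : (2 * k + 1 : ℝ) ≤ 35 * r ^ 4 := by linarith
      calc (2 * k + 1 : ℝ) * (2 * r) ≤ 35 * r ^ 4 * (2 * r) := by gcongr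
        _ = 70 * r ^ 5 := by ring
        _ ≤ 1 * (Y / 6) := by
            have : r ^ 5 ≤ r ^ 9 := pow_le_pow_right₀ hr1 (by norm_num)
            have h7 : E ≤ Y := by
              calc E = E * 1 := by ring
                _ ≤ E * r := by gcongr
            have : (0 : ℝ) ≤ r ^ 9 := by positivity
            linarith
        _ ≤ 1 * (2 * Q + 1) := by gcongr
    have f2 : ((n : ℝ) - (2 * Q + 1) * (2 * h + 1)) / n ≤ 1 / (2 * r) := by
      rw [div_le_div_iff₀ hnpos (by positivity)]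
      have g2 : (n : ℝ) - (2 * Q + 1) * (2 * h + 1) ≤ 2 * m := by
        have : ((n : ℝ) / m - 2) * m ≤ (2 * Q + 1) * m := by gcongr
        rw [sub_mul, div_mul_cancel₀ _ hmpos.ne'] at this
        rw [← hmr]
        linarith
      have g3 : (m : ℝ) ≤ 3 * X := by rw [hmr]; exact hm2
      calc ((n : ℝ) - (2 * Q + 1) * (2 * h + 1)) * (2 * r) ≤ (2 * (3 * X)) * (2 * r) := by
            gcongr; linarith
        _ = 12 * E := by rw [hXdef]; field_simp; ring
        _ ≤ 1 * n := by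
            rw [hnE, one_mul]; nlinarith
    have f3 : 1 / (2 * r) + 1 / (2 * r) = 1 / r := by field_simp; norm_num
    linarith

/-- the bound for the lower error -/
theorem err_lim {r T : ℕ → ℝ} (hr : Tendsto r atTop atTop) (s : ℝ) (hs : 0 ≤ s)
    (hT0 : ∀ᶠ k in atTop, 0 ≤ T k) (hT : ∀ᶠ k in atTop, T k ≤ 1225 * r k ^ 2) :
    Tendsto (fun k => (34 * r k ^ 4) ^ ⌊s * T k⌋₊ * (2 * (⌊s * T k⌋₊ : ℝ) + 1) /
      Real.exp (r k ^ 4 / 2)) atTop (𝓝 0) := by
  have hlog : ∀ᶠ x : ℝ in atTop, Real.log (34 * x ^ 4) ≤ x := by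
    have h1 : Tendsto (fun x : ℝ => Real.log 34 / x + 4 * (Real.log x / x)) atTop (𝓝 0) := by
      have h2 : Tendsto (fun x : ℝ => Real.log 34 / x) atTop (𝓝 0) :=
        tendsto_const_nhds.div_atTop tendsto_id
      have h3 : Tendsto (fun x : ℝ => Real.log x / x) atTop (𝓝 0) := by
        have := Real.isLittleO_log_id_atTop.tendsto_div_nhds_zero
        exact this
      simpa using h2.add (h3.const_mul 4)
    filter_upwards [h1.eventually (gt_mem_nhds zero_lt_one), eventually_gt_atTop 0] with x hx hx0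
    rw [Real.log_mul (by norm_num) (by positivity), Real.log_pow]
    have h4 : Real.log 34 / x + 4 * (Real.log x / x) = (Real.log 34 + 4 * Real.log x) / x := by
      field_simp
    rw [h4, div_lt_one hx0] at hx
    push_cast
    linarith
  have hmaj : Tendsto (fun x : ℝ => 9800 * s * (x ^ 2)⁻¹ + 4 * (x ^ 4)⁻¹) atTop (𝓝 0) := by
    have h2 : Tendsto (fun x : ℝ => (x ^ 2)⁻¹) atTop (𝓝 0) :=
      (tendsto_pow_atTop (by norm_num)).inv_tendsto_atTop
    have h4 : Tendsto (fun x : ℝ => (x ^ 4)⁻¹) atTop (𝓝 0) :=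
      (tendsto_pow_atTop (by norm_num)).inv_tendsto_atTop
    simpa using (h2.const_mul (9800 * s)).add (h4.const_mul 4)
  refine squeeze_zero' ?_ ?_ (hmaj.comp hr)
  · filter_upwards [hr.eventually_ge_atTop 0] with k hk
    positivity
  · filter_upwards [hr.eventually hlog, hr.eventually_ge_atTop (4900 * s + 1), hT0, hT]
      with k h1 h2 h3 h4
    simp only [Function.comp_apply]
    set x := r k with hx
    have hx1 : 1 ≤ x := by linarith [mul_nonneg (by norm_num : (0 : ℝ) ≤ 4900) hs]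
    have hx0 : 0 < x := by linarith
    set t := ⌊s * T k⌋₊ with ht
    have ht1 : (t : ℝ) ≤ s * T k := Nat.floor_le (mul_nonneg hs h3)
    have ht2 : (t : ℝ) ≤ 1225 * s * x ^ 2 := by
      refine ht1.trans ?_
      calc s * T k ≤ s * (1225 * x ^ 2) := by gcongr
        _ = _ := by ring
    have e1 : (34 * x ^ 4) ^ t ≤ Real.exp (x ^ 4 / 4) := by
      rw [← Real.exp_log (show 0 < 34 * x ^ 4 by positivity), ← Real.exp_nat_mul]
      apply Real.exp_le_exp.mpr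
      calc (t : ℝ) * Real.log (34 * x ^ 4) ≤ (t : ℝ) * x := by gcongr
        _ ≤ 1225 * s * x ^ 2 * x := by gcongr
        _ = (4900 * s) * (x ^ 3 / 4) := by ring
        _ ≤ x * (x ^ 3 / 4) := by gcongr; linarith
        _ = x ^ 4 / 4 := by ring
    have e2 : (2 * (t : ℝ) + 1) ≤ 2450 * s * x ^ 2 + 1 := by linarith
    have e3 : Real.exp (x ^ 4 / 2) = Real.exp (x ^ 4 / 4) * Real.exp (x ^ 4 / 4) := by
      rw [← Real.exp_add]; congr 1; ring
    have e4 : x ^ 4 / 4 ≤ Real.exp (x ^ 4 / 4) := by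
      have := Real.add_one_le_exp (x ^ 4 / 4)
      linarith
    calc (34 * x ^ 4) ^ t * (2 * (t : ℝ) + 1) / Real.exp (x ^ 4 / 2)
        ≤ Real.exp (x ^ 4 / 4) * (2450 * s * x ^ 2 + 1) / Real.exp (x ^ 4 / 2) := by gcongr
      _ = (2450 * s * x ^ 2 + 1) / Real.exp (x ^ 4 / 4) := by
          rw [e3]
          have := Real.exp_pos (x ^ 4 / 4)
          field_simp
      _ ≤ (2450 * s * x ^ 2 + 1) / (x ^ 4 / 4) := by gcongr
      _ = 9800 * s * (x ^ 2)⁻¹ + 4 * (x ^ 4)⁻¹ := by field_simp; ring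

end

end Pool.Agent.L5helper97.Cyc
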