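import Mathlib

/-!
Random choice of translates: all nontrivial characters are small and there are no collisions.
-/

open Finset

namespace Pool.Agent.L5helper97.Cyc

noncomputable section

variable {n : ℕ} [NeZero n]

theorem mgf (k : ℕ) (c : ZMod n → ℝ) (hc : ∀ x, |c x| ≤ 1) (hs : ∑ x, c x = 0) :
    ∑ a : Fin k → ZMod n, Real.exp ((∑ j, c (a j)) / 2 - k / 4) ≤
      (n : ℝ) ^ k * Real.exp (-(k : ℝ) / 8) := by
  have h1 : ∀ a : Fin k → ZMod n, Real.exp ((∑ j, c (a j)) / 2 - k / 4) =
      Real.exp (-(k : ℝ) / 4) * ∏ j, Real.exp (c (a j) * (1 / 2)) := by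
    intro a
    rw [← Real.exp_sum, ← Real.exp_add, ← Finset.sum_mul]
    congr 1; ring
  simp only [h1]
  rw [← Finset.mul_sum]
  have h2 : ∑ a : Fin k → ZMod n, ∏ j, Real.exp (c (a j) * (1 / 2)) =
      (∑ x, Real.exp (c x * (1 / 2))) ^ k := by
    have := Finset.prod_univ_sum (fun _ : Fin k => (univ : Finset (ZMod n)))
      (fun _ x => Real.exp (c x * (1 / 2)))
    rw [Finset.prod_const, Finset.card_univ, Fintype.card_fin, Fintype.piFinset_univ] at this
    exact this.symm
  rw [h2]
  have h3 : ∑ x, Real.exp (c x * (1 / 2)) ≤ n * Real.exp (1 / 8) := by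
    calc ∑ x, Real.exp (c x * (1 / 2))
        ≤ ∑ x, (Real.cosh (1 / 2) + c x * Real.sinh (1 / 2)) :=
          Finset.sum_le_sum fun x _ => Real.exp_mul_le_cosh_add_mul_sinh (hc x) _
      _ = n * Real.cosh (1 / 2) := by
          rw [Finset.sum_add_distrib, ← Finset.sum_mul, hs]
          simp [ZMod.card]
      _ ≤ n * Real.exp (1 / 8) := by
          gcongr
          have := Real.cosh_le_exp_half_sq (1 / 2)
          norm_num at this
          exact this
  have h4 : 0 ≤ ∑ x, Real.exp (c x * (1 / 2)) := Finset.sum_nonneg fun _ _ => (Real.exp_pos _).le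
  calc Real.exp (-(k : ℝ) / 4) * (∑ x, Real.exp (c x * (1 / 2))) ^ k
      ≤ Real.exp (-(k : ℝ) / 4) * (n * Real.exp (1 / 8)) ^ k := by gcongr
    _ = (n : ℝ) ^ k * Real.exp (-(k : ℝ) / 8) := by
        rw [mul_pow, ← Real.exp_nat_mul, mul_left_comm, ← Real.exp_add]
        congr 2; ring

/-- counting by shifting one coordinate -/
theorem shift_count (k : ℕ) (i : Fin k) (φ : (Fin k → ZMod n) → ZMod n) (m : ZMod n) (M : ℕ)
    (hφ : ∀ a t, φ (a + Pi.single i t) = φ a + m * t) (D : Finset (ZMod n))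
    (hm : ∀ y, (univ.filter fun t : ZMod n => y + m * t ∈ D).card ≤ M) :
    ∑ a : Fin k → ZMod n, (if φ a ∈ D then (1 : ℝ) else 0) ≤ (n : ℝ) ^ k * (M / n) := by
  have hn : (0 : ℝ) < n := by exact_mod_cast Nat.pos_of_ne_zero (NeZero.ne n)
  have h1 : ∀ t : ZMod n, ∑ a : Fin k → ZMod n, (if φ a ∈ D then (1 : ℝ) else 0) =
      ∑ a : Fin k → ZMod n, (if φ a + m * t ∈ D then (1 : ℝ) else 0) := by
    intro t
    rw [← Equiv.sum_comp (Equiv.addRight (Pi.single i t))]
    refine Finset.sum_congr rfl fun a _ => ?_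
    rw [Equiv.coe_addRight, hφ]
  have h2 : (n : ℝ) * ∑ a : Fin k → ZMod n, (if φ a ∈ D then (1 : ℝ) else 0) ≤
      (n : ℝ) ^ k * M := by
    calc (n : ℝ) * ∑ a : Fin k → ZMod n, (if φ a ∈ D then (1 : ℝ) else 0)
        = ∑ t : ZMod n, ∑ a : Fin k → ZMod n, (if φ a + m * t ∈ D then (1 : ℝ) else 0) := by
          rw [Finset.sum_congr rfl fun t _ => (h1 t).symm]
          simp [ZMod.card]
      _ = ∑ a : Fin k → ZMod n, ∑ t : ZMod n, (if φ a + m * t ∈ D then (1 : ℝ) else 0) :=
          Finset.sum_comm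
      _ ≤ ∑ _a : Fin k → ZMod n, (M : ℝ) := by
          refine Finset.sum_le_sum fun a _ => ?_
          rw [Finset.sum_boole]
          exact_mod_cast hm (φ a)
      _ = (n : ℝ) ^ k * M := by
          simp [ZMod.card]
  rw [mul_div_assoc', le_div_iff₀ hn]
  linarith

theorem card_shift (D : Finset (ZMod n)) (y : ZMod n) :
    (univ.filter fun t : ZMod n => y + 1 * t ∈ D).card ≤ D.card := by
  apply Finset.card_le_card_of_injOn (fun t => y + 1 * t)
  · intro t ht
    simpa using ht
  · intro t _ s _ h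
    simpa using h

theorem card_double (D : Finset (ZMod n)) (y : ZMod n) :
    (univ.filter fun t : ZMod n => y + 2 * t ∈ D).card ≤ 2 * D.card := by
  classical
  have h1 : (univ.filter fun t : ZMod n => y + 2 * t ∈ D) ⊆
      D.biUnion fun d => univ.filter fun t : ZMod n => y + 2 * t = d := by
    intro t ht
    simp only [Finset.mem_filter, Finset.mem_univ, true_and, Finset.mem_biUnion] at ht ⊢
    exact ⟨_, ht, rfl⟩
  refine (Finset.card_le_card h1).trans ?_
  refine (Finset.card_biUnion_le).trans ?_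
  rw [mul_comm, ← smul_eq_mul, ← Finset.sum_const]
  refine Finset.sum_le_sum fun d _ => ?_
  -- at most two solutions of `2 t = d - y`
  have key : ∀ t : ZMod n, y + 2 * t = d → 2 * t.val = (d - y).val ∨ 2 * t.val = (d - y).val + n := by
    intro t ht
    have h2 : ((2 * t.val : ℕ) : ZMod n) = d - y := by
      push_cast
      rw [ZMod.natCast_zmod_val, ← ht]; ring
    have h3 : (2 * t.val) % n = (d - y).val := by
      rw [← h2, ZMod.val_natCast]
    have h4 := ZMod.val_lt t
    have h5 : 2 * t.val < 2 * n := by omega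
    rcases lt_or_ge (2 * t.val) n with h | h
    · left
      rw [Nat.mod_eq_of_lt h] at h3
      exact h3
    · right
      have h6 : (2 * t.val) % n = 2 * t.val - n := by
        rw [Nat.mod_eq_sub_mod h, Nat.mod_eq_of_lt (by omega)]
      omega
  have h7 : (univ.filter fun t : ZMod n => y + 2 * t = d).image ZMod.val ⊆
      {(d - y).val / 2, ((d - y).val + n) / 2} := by
    intro v hv
    simp only [Finset.mem_image, Finset.mem_filter, Finset.mem_univ, true_and] at hv
    obtain ⟨t, ht, rfl⟩ := hv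
    simp only [Finset.mem_insert, Finset.mem_singleton]
    rcases key t ht with h | h
    · left; omega
    · right; omega
  calc (univ.filter fun t : ZMod n => y + 2 * t = d).card
      = ((univ.filter fun t : ZMod n => y + 2 * t = d).image ZMod.val).card :=
        (Finset.card_image_of_injective _ (ZMod.val_injective n)).symm
    _ ≤ ({(d - y).val / 2, ((d - y).val + n) / 2} : Finset ℕ).card := Finset.card_le_card h7
    _ ≤ 2 := Finset.card_le_two

/-- real part of a character value -/
def cr (ξ x : ZMod n) : ℝ := (ZMod.stdAddChar (ξ * x) : ℂ).re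

theorem cr_abs (ξ x : ZMod n) : |cr ξ x| ≤ 1 := by
  calc |cr ξ x| ≤ ‖(ZMod.stdAddChar (ξ * x) : ℂ)‖ := Complex.abs_re_le_norm _
    _ = 1 := AddChar.norm_apply _ _

theorem cr_sum (ξ : ZMod n) (hξ : ξ ≠ 0) : ∑ x, cr ξ x = 0 := by
  have h1 : ∑ x, (ZMod.stdAddChar (ξ * x) : ℂ) = 0 := by
    have hprim := ZMod.isPrimitive_stdAddChar n hξ
    have := AddChar.sum_eq_zero_of_ne_one hprim
    simpa [AddChar.mulShift_apply] using this
  have h2 := congrArg Complex.re h1
  rw [Complex.re_sum] at h2
  exact h2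

/-- **Random translates.** -/
theorem exists_translates (k : ℕ) (D J : Finset (ZMod n))
    (hsmall : 2 * (n : ℝ) * Real.exp (-(k : ℝ) / 8) + (3 * (k : ℝ) ^ 2 * D.card + k * J.card) / n < 1) :
    ∃ a : Fin k → ZMod n, (∀ ξ : ZMod n, ξ ≠ 0 → |∑ j, cr ξ (a j)| ≤ k / 2) ∧
      (∀ i j, i ≠ j → a i - a j ∉ D) ∧ (∀ i j, a i + a j ∉ D) ∧ ∀ j, a j ∉ J := by
  classical
  have hn : (0 : ℝ) < n := by exact_mod_cast Nat.pos_of_ne_zero (NeZero.ne n)
  let F : (Fin k → ZMod n) → ℝ := fun a =>
    (∑ ξ ∈ (univ : Finset (ZMod n)).erase 0,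
      (Real.exp ((∑ j, cr ξ (a j)) / 2 - k / 4) + Real.exp ((∑ j, -cr ξ (a j)) / 2 - k / 4))) +
    (∑ i, ∑ j, (if i = j then 0 else (if a i - a j ∈ D then (1 : ℝ) else 0))) +
    (∑ i, ∑ j, (if a i + a j ∈ D then (1 : ℝ) else 0)) +
    ∑ j, (if a j ∈ J then (1 : ℝ) else 0)
  have hF : ∑ a, F a < ∑ _a : Fin k → ZMod n, (1 : ℝ) := by
    have e0 : ∑ _a : Fin k → ZMod n, (1 : ℝ) = (n : ℝ) ^ k := by simp [ZMod.card]
    rw [e0]
    simp only [F, Finset.sum_add_distrib]
    have p1 : ∑ a : Fin k → ZMod n, ∑ ξ ∈ (univ : Finset (ZMod n)).erase 0,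
        Real.exp ((∑ j, cr ξ (a j)) / 2 - k / 4) ≤ n * ((n : ℝ) ^ k * Real.exp (-(k : ℝ) / 8)) := by
      rw [Finset.sum_comm]
      calc ∑ ξ ∈ (univ : Finset (ZMod n)).erase 0, ∑ a : Fin k → ZMod n,
            Real.exp ((∑ j, cr ξ (a j)) / 2 - k / 4)
          ≤ ∑ _ξ ∈ (univ : Finset (ZMod n)).erase 0, ((n : ℝ) ^ k * Real.exp (-(k : ℝ) / 8)) := by
            refine Finset.sum_le_sum fun ξ hξ => ?_
            exact mgf k (cr ξ) (cr_abs ξ) (cr_sum ξ (Finset.ne_of_mem_erase hξ))
        _ ≤ ∑ _ξ : ZMod n, ((n : ℝ) ^ k * Real.exp (-(k : ℝ) / 8)) :=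
            Finset.sum_le_sum_of_subset_of_nonneg (Finset.erase_subset _ _)
              fun _ _ _ => by positivity
        _ = _ := by simp [ZMod.card]
    have p2 : ∑ a : Fin k → ZMod n, ∑ ξ ∈ (univ : Finset (ZMod n)).erase 0,
        Real.exp ((∑ j, -cr ξ (a j)) / 2 - k / 4) ≤ n * ((n : ℝ) ^ k * Real.exp (-(k : ℝ) / 8)) := by
      rw [Finset.sum_comm]
      calc ∑ ξ ∈ (univ : Finset (ZMod n)).erase 0, ∑ a : Fin k → ZMod n,
            Real.exp ((∑ j, -cr ξ (a j)) / 2 - k / 4)
          ≤ ∑ _ξ ∈ (univ : Finset (ZMod n)).erase 0, ((n : ℝ) ^ k * Real.exp (-(k : ℝ) / 8)) := by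
            refine Finset.sum_le_sum fun ξ hξ => ?_
            exact mgf k (fun x => -cr ξ x) (fun x => by rw [abs_neg]; exact cr_abs ξ x)
              (by rw [Finset.sum_neg_distrib, cr_sum ξ (Finset.ne_of_mem_erase hξ), neg_zero])
        _ ≤ ∑ _ξ : ZMod n, ((n : ℝ) ^ k * Real.exp (-(k : ℝ) / 8)) :=
            Finset.sum_le_sum_of_subset_of_nonneg (Finset.erase_subset _ _)
              fun _ _ _ => by positivity
        _ = _ := by simp [ZMod.card]
    have p3 : ∑ a : Fin k → ZMod n, ∑ i, ∑ j,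
        (if i = j then 0 else (if a i - a j ∈ D then (1 : ℝ) else 0)) ≤
        k * (k * ((n : ℝ) ^ k * (D.card / n))) := by
      rw [Finset.sum_comm]
      calc ∑ i : Fin k, ∑ a : Fin k → ZMod n, ∑ j,
            (if i = j then 0 else (if a i - a j ∈ D then (1 : ℝ) else 0))
          ≤ ∑ _i : Fin k, (k * ((n : ℝ) ^ k * (D.card / n))) := by
            refine Finset.sum_le_sum fun i _ => ?_
            rw [Finset.sum_comm]
            calc ∑ j : Fin k, ∑ a : Fin k → ZMod n,
                  (if i = j then 0 else (if a i - a j ∈ D then (1 : ℝ) else 0))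
                ≤ ∑ _j : Fin k, ((n : ℝ) ^ k * (D.card / n)) := by
                  refine Finset.sum_le_sum fun j _ => ?_
                  by_cases hij : i = j
                  · simp only [hij, if_true, Finset.sum_const_zero]
                    positivity
                  · simp only [hij, if_false]
                    refine shift_count k i (fun a => a i - a j) 1 D.card ?_ D (card_shift D)
                    intro a t
                    simp only [Pi.add_apply, Pi.single_eq_same]
                    rw [Pi.single_eq_of_ne (Ne.symm hij)]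
                    ring
              _ = _ := by simp
        _ = _ := by simp
    have p4 : ∑ a : Fin k → ZMod n, ∑ i, ∑ j, (if a i + a j ∈ D then (1 : ℝ) else 0) ≤
        k * (k * ((n : ℝ) ^ k * (((2 * D.card : ℕ) : ℝ) / n))) := by
      rw [Finset.sum_comm]
      calc ∑ i : Fin k, ∑ a : Fin k → ZMod n, ∑ j, (if a i + a j ∈ D then (1 : ℝ) else 0)
          ≤ ∑ _i : Fin k, (k * ((n : ℝ) ^ k * (((2 * D.card : ℕ) : ℝ) / n))) := by
            refine Finset.sum_le_sum fun i _ => ?_
            rw [Finset.sum_comm]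
            calc ∑ j : Fin k, ∑ a : Fin k → ZMod n, (if a i + a j ∈ D then (1 : ℝ) else 0)
                ≤ ∑ _j : Fin k, ((n : ℝ) ^ k * (((2 * D.card : ℕ) : ℝ) / n)) := by
                  refine Finset.sum_le_sum fun j _ => ?_
                  by_cases hij : i = j
                  · subst hij
                    refine shift_count k i (fun a => a i + a i) 2 (2 * D.card) ?_ D (card_double D)
                    intro a t
                    simp only [Pi.add_apply, Pi.single_eq_same]
                    ring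
                  · refine shift_count k i (fun a => a i + a j) 1 (2 * D.card) ?_ D
                      (fun y => (card_shift D y).trans (by omega))
                    intro a t
                    simp only [Pi.add_apply, Pi.single_eq_same]
                    rw [Pi.single_eq_of_ne (Ne.symm hij)]
                    ring
              _ = _ := by simp
        _ = _ := by simp
    have p5 : ∑ a : Fin k → ZMod n, ∑ j, (if a j ∈ J then (1 : ℝ) else 0) ≤
        k * ((n : ℝ) ^ k * (J.card / n)) := by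
      rw [Finset.sum_comm]
      calc ∑ j : Fin k, ∑ a : Fin k → ZMod n, (if a j ∈ J then (1 : ℝ) else 0)
          ≤ ∑ _j : Fin k, ((n : ℝ) ^ k * (J.card / n)) := by
            refine Finset.sum_le_sum fun j _ => ?_
            refine shift_count k j (fun a => a j) 1 J.card ?_ J (card_shift J)
            intro a t
            simp only [Pi.add_apply, Pi.single_eq_same]
            ring
        _ = _ := by simp
    have hnk : (0 : ℝ) < (n : ℝ) ^ k := by positivity
    have p6 : n * ((n : ℝ) ^ k * Real.exp (-(k : ℝ) / 8)) + n * ((n : ℝ) ^ k * Real.exp (-(k : ℝ) / 8))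
        + k * (k * ((n : ℝ) ^ k * (D.card / n))) + k * (k * ((n : ℝ) ^ k * (((2 * D.card : ℕ) : ℝ) / n)))
        + k * ((n : ℝ) ^ k * (J.card / n)) =
        (n : ℝ) ^ k * (2 * (n : ℝ) * Real.exp (-(k : ℝ) / 8) +
          (3 * (k : ℝ) ^ 2 * D.card + k * J.card) / n) := by
      push_cast
      field_simp
      ring
    have p7 := mul_lt_mul_of_pos_left hsmall hnk
    rw [mul_one] at p7
    linarith
  obtain ⟨a, -, ha⟩ := Finset.exists_lt_of_sum_lt hF
  have t1 : 0 ≤ ∑ ξ ∈ (univ : Finset (ZMod n)).erase 0,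
      (Real.exp ((∑ j, cr ξ (a j)) / 2 - k / 4) + Real.exp ((∑ j, -cr ξ (a j)) / 2 - k / 4)) :=
    Finset.sum_nonneg fun _ _ => by positivity
  have t2 : 0 ≤ ∑ i, ∑ j, (if i = j then 0 else (if a i - a j ∈ D then (1 : ℝ) else 0)) :=
    Finset.sum_nonneg fun _ _ => Finset.sum_nonneg fun _ _ => by split_ifs <;> norm_num
  have t3 : 0 ≤ ∑ i, ∑ j, (if a i + a j ∈ D then (1 : ℝ) else 0) :=
    Finset.sum_nonneg fun _ _ => Finset.sum_nonneg fun _ _ => by split_ifs <;> norm_num
  have t4 : 0 ≤ ∑ j, (if a j ∈ J then (1 : ℝ) else 0) :=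
    Finset.sum_nonneg fun _ _ => by split_ifs <;> norm_num
  have ha' : (∑ ξ ∈ (univ : Finset (ZMod n)).erase 0,
      (Real.exp ((∑ j, cr ξ (a j)) / 2 - k / 4) + Real.exp ((∑ j, -cr ξ (a j)) / 2 - k / 4))) +
    (∑ i, ∑ j, (if i = j then 0 else (if a i - a j ∈ D then (1 : ℝ) else 0))) +
    (∑ i, ∑ j, (if a i + a j ∈ D then (1 : ℝ) else 0)) +
    ∑ j, (if a j ∈ J then (1 : ℝ) else 0) < 1 := ha
  refine ⟨a, ?_, ?_, ?_, ?_⟩
  · intro ξ hξ
    have h1 : Real.exp ((∑ j, cr ξ (a j)) / 2 - k / 4) + Real.exp ((∑ j, -cr ξ (a j)) / 2 - k / 4)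
        < 1 := by
      have := Finset.single_le_sum (f := fun ξ => Real.exp ((∑ j, cr ξ (a j)) / 2 - k / 4) +
        Real.exp ((∑ j, -cr ξ (a j)) / 2 - k / 4)) (fun _ _ => by positivity)
        (Finset.mem_erase.mpr ⟨hξ, Finset.mem_univ ξ⟩)
      linarith
    have h2 := Real.exp_pos ((∑ j, cr ξ (a j)) / 2 - k / 4)
    have h3 := Real.exp_pos ((∑ j, -cr ξ (a j)) / 2 - k / 4)
    have h4 : Real.exp ((∑ j, cr ξ (a j)) / 2 - k / 4) < 1 := by linarith
    have h5 : Real.exp ((∑ j, -cr ξ (a j)) / 2 - k / 4) < 1 := by linarith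
    rw [Real.exp_lt_one_iff] at h4 h5
    rw [Finset.sum_neg_distrib] at h5
    rw [abs_le]
    constructor <;> linarith
  · intro i j hij h
    have h1 : (if i = j then 0 else (if a i - a j ∈ D then (1 : ℝ) else 0)) = 1 := by
      rw [if_neg hij, if_pos h]
    have h2 := Finset.single_le_sum (f := fun j => (if i = j then 0 else
      (if a i - a j ∈ D then (1 : ℝ) else 0))) (fun _ _ => by split_ifs <;> norm_num)
      (Finset.mem_univ j)
    have h3 := Finset.single_le_sum (f := fun i => ∑ j, (if i = j then 0 else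
      (if a i - a j ∈ D then (1 : ℝ) else 0)))
      (fun _ _ => Finset.sum_nonneg fun _ _ => by split_ifs <;> norm_num) (Finset.mem_univ i)
    rw [h1] at h2
    linarith
  · intro i j h
    have h1 : (if a i + a j ∈ D then (1 : ℝ) else 0) = 1 := if_pos h
    have h2 := Finset.single_le_sum (f := fun j => (if a i + a j ∈ D then (1 : ℝ) else 0))
      (fun _ _ => by split_ifs <;> norm_num) (Finset.mem_univ j)
    have h3 := Finset.single_le_sum (f := fun i => ∑ j, (if a i + a j ∈ D then (1 : ℝ) else 0))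
      (fun _ _ => Finset.sum_nonneg fun _ _ => by split_ifs <;> norm_num) (Finset.mem_univ i)
    rw [h1] at h2
    linarith
  · intro j h
    have h1 : (if a j ∈ J then (1 : ℝ) else 0) = 1 := if_pos h
    have h2 := Finset.single_le_sum (f := fun j => (if a j ∈ J then (1 : ℝ) else 0))
      (fun _ _ => by split_ifs <;> norm_num) (Finset.mem_univ j)
    rw [h1] at h2
    linarith

end

end Pool.Agent.L5helper97.Cyc
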