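import Pool.Agent.L5helper97.Cyc.Avg
import Pool.Agent.L5helper97.Cyc.Rand

/-!
The step sets on a cycle of arbitrary length.
-/

open Finset
open scoped Pointwise

namespace Pool.Agent.L5helper97.Cyc

noncomputable section

/-- averages over direct sums of sets -/
theorem U_add {G : Type*} [AddCommGroup G] [DecidableEq G] (A B : Finset G)
    (h : Set.InjOn (fun p : G × G => p.1 + p.2) (A ×ˢ B : Finset (G × G))) :
    U (A + B) = U A * U B := by
  ext f x
  rw [Module.End.mul_apply, U_apply, U_apply]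
  simp only [U_apply]
  have hcard : (A + B).card = A.card * B.card := by
    rw [← Finset.image_add_product, Finset.card_image_of_injOn h, Finset.card_product]
  have hsum : ∑ s ∈ A + B, f (x + s) = ∑ a ∈ A, ∑ b ∈ B, f (x + a + b) := by
    rw [← Finset.image_add_product, Finset.sum_image h, Finset.sum_product]
    refine Finset.sum_congr rfl fun a _ => Finset.sum_congr rfl fun b _ => ?_
    rw [add_assoc]
  rw [hcard, hsum, ← Finset.sum_div, div_div]
  push_cast
  rw [mul_comm (B.card : ℝ)]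

variable {n : ℕ} [NeZero n]

/-- the interval `[-r, r]` in `ℤ/n` -/
def iv (n : ℕ) (r : ℕ) : Finset (ZMod n) :=
  (Finset.Icc (-(r : ℤ)) r).image (fun z : ℤ => (z : ZMod n))

omit [NeZero n] in
theorem mem_iv {r : ℕ} {x : ZMod n} : x ∈ iv n r ↔ ∃ z : ℤ, |z| ≤ r ∧ (z : ZMod n) = x := by
  simp only [iv, Finset.mem_image, Finset.mem_Icc, abs_le]

omit [NeZero n] in
theorem iv_card_le (r : ℕ) : (iv n r).card ≤ 2 * r + 1 := by
  refine Finset.card_image_le.trans ?_
  rw [Int.card_Icc]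
  omega

omit [NeZero n] in
theorem iv_neg {r : ℕ} {x : ZMod n} (h : x ∈ iv n r) : -x ∈ iv n r := by
  rw [mem_iv] at h ⊢
  obtain ⟨z, hz, rfl⟩ := h
  exact ⟨-z, by rwa [abs_neg], by push_cast; rfl⟩

omit [NeZero n] in
theorem iv_add {r s : ℕ} {x y : ZMod n} (hx : x ∈ iv n r) (hy : y ∈ iv n s) :
    x + y ∈ iv n (r + s) := by
  rw [mem_iv] at hx hy ⊢
  obtain ⟨z, hz, rfl⟩ := hx
  obtain ⟨w, hw, rfl⟩ := hy
  refine ⟨z + w, (abs_add_le _ _).trans (by push_cast; linarith), by push_cast; rfl⟩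

omit [NeZero n] in
theorem iv_zero (r : ℕ) : (0 : ZMod n) ∈ iv n r := by
  rw [mem_iv]; exact ⟨0, by simp, by simp⟩

omit [NeZero n] in
theorem int_inj {R : ℤ} (hR : 2 * R < n) {z w : ℤ} (hz : |z| ≤ R) (hw : |w| ≤ R)
    (h : (z : ZMod n) = (w : ZMod n)) : z = w := by
  rw [ZMod.intCast_eq_intCast_iff_dvd_sub] at h
  have h1 : |w - z| < n := by
    refine lt_of_le_of_lt (abs_sub _ _) ?_
    linarith
  have := Int.eq_zero_of_abs_lt_dvd h h1
  linarith

/-- the arithmetic progression of the multiples `j m`, `|j| ≤ Q` -/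
def ap (n : ℕ) (Q m : ℕ) : Finset (ZMod n) :=
  (Finset.Icc (-(Q : ℤ)) Q).image (fun z : ℤ => ((z * m : ℤ) : ZMod n))

omit [NeZero n] in
theorem mem_ap {Q m : ℕ} {x : ZMod n} :
    x ∈ ap n Q m ↔ ∃ z : ℤ, |z| ≤ Q ∧ ((z * m : ℤ) : ZMod n) = x := by
  simp only [ap, Finset.mem_image, Finset.mem_Icc, abs_le]

omit [NeZero n] in
theorem ap_neg {Q m : ℕ} {x : ZMod n} (h : x ∈ ap n Q m) : -x ∈ ap n Q m := by
  rw [mem_ap] at h ⊢
  obtain ⟨z, hz, rfl⟩ := h
  exact ⟨-z, by rwa [abs_neg], by push_cast; ring⟩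

omit [NeZero n] in
theorem iv_card {r : ℕ} (h : 2 * r < n) : (iv n r).card = 2 * r + 1 := by
  rw [iv, Finset.card_image_of_injOn]
  · rw [Int.card_Icc]; omega
  · intro z hz w hw hzw
    simp only [Finset.coe_Icc, Set.mem_Icc] at hz hw
    exact int_inj (R := r) (by exact_mod_cast h) (abs_le.mpr hz) (abs_le.mpr hw) hzw

theorem abs_mul_add_le {h Q : ℕ} {j u : ℤ} (hj : |j| ≤ Q) (hu : |u| ≤ h) :
    |j * ((2 * h + 1 : ℕ) : ℤ) + u| ≤ (Q : ℤ) * (2 * h + 1) + h := by
  refine (abs_add_le _ _).trans ?_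
  rw [abs_mul]
  have h1 : |((2 * h + 1 : ℕ) : ℤ)| = 2 * h + 1 := by
    rw [abs_of_nonneg (by positivity)]; push_cast; ring
  rw [h1]
  have h2 : |j| * (2 * (h : ℤ) + 1) ≤ Q * (2 * h + 1) := by gcongr
  linarith

omit [NeZero n] in
theorem ap_card {Q h : ℕ} (hm : (2 * Q + 1) * (2 * h + 1) ≤ n) :
    (ap n Q (2 * h + 1)).card = 2 * Q + 1 := by
  rw [ap, Finset.card_image_of_injOn]
  · rw [Int.card_Icc]; omega
  · intro z hz w hw hzw
    simp only [Finset.coe_Icc, Set.mem_Icc] at hz hw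
    have h1 := abs_mul_add_le (h := h) (u := 0) (abs_le.mpr hz) (by simp)
    have h2 := abs_mul_add_le (h := h) (u := 0) (abs_le.mpr hw) (by simp)
    rw [add_zero] at h1 h2
    have h3 : 2 * ((Q : ℤ) * (2 * h + 1) + h) < n := by
      have : ((2 * Q + 1) * (2 * h + 1) : ℤ) ≤ n := by exact_mod_cast hm
      nlinarith
    have h4 := int_inj h3 h1 h2 hzw
    have h5 : ((2 * h + 1 : ℕ) : ℤ) ≠ 0 := by positivity
    exact mul_right_cancel₀ h5 h4

omit [NeZero n] in
/-- the interval and the progression form a direct sum -/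
theorem iv_ap_inj {Q h : ℕ} (hm : (2 * Q + 1) * (2 * h + 1) ≤ n) :
    Set.InjOn (fun p : ZMod n × ZMod n => p.1 + p.2)
      (iv n h ×ˢ ap n Q (2 * h + 1) : Finset (ZMod n × ZMod n)) := by
  rintro ⟨x, y⟩ hxy ⟨x', y'⟩ hxy' heq
  simp only [Finset.coe_product, Set.mem_prod, Finset.mem_coe, mem_iv, mem_ap] at hxy hxy'
  obtain ⟨⟨u, hu, rfl⟩, ⟨j, hj, rfl⟩⟩ := hxy
  obtain ⟨⟨u', hu', rfl⟩, ⟨j', hj', rfl⟩⟩ := hxy'
  simp only at heq
  have h1 := abs_mul_add_le hj hu
  have h2 := abs_mul_add_le hj' hu'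
  have h3 : 2 * ((Q : ℤ) * (2 * h + 1) + h) < n := by
    have : ((2 * Q + 1) * (2 * h + 1) : ℤ) ≤ n := by exact_mod_cast hm
    nlinarith
  have h4 : j * ((2 * h + 1 : ℕ) : ℤ) + u = j' * ((2 * h + 1 : ℕ) : ℤ) + u' := by
    apply int_inj h3 h1 h2
    push_cast at heq ⊢
    rw [add_comm, heq, add_comm]
  have h5 : j = j' := by
    have h6 : (j - j') * ((2 * h + 1 : ℕ) : ℤ) = u' - u := by linarith
    have h7 : |u' - u| < ((2 * h + 1 : ℕ) : ℤ) := by
      refine lt_of_le_of_lt (abs_sub _ _) ?_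
      push_cast; linarith
    have h8 := Int.eq_zero_of_abs_lt_dvd (Dvd.intro_left _ h6) h7
    rw [h8] at h6
    have h9 : ((2 * h + 1 : ℕ) : ℤ) ≠ 0 := by positivity
    have := (mul_eq_zero.mp h6).resolve_right h9
    linarith
  subst h5
  have h6 : u = u' := by linarith
  subst h6
  rfl

/-- centres of the translates -/
theorem exists_centres (k h : ℕ)
    (hsmall : 2 * (n : ℝ) * Real.exp (-(k : ℝ) / 8) +
      (3 * (k : ℝ) ^ 2 * (4 * h + 1) + k * (2 * h + 1)) / n < 1) :
    ∃ C : Finset (ZMod n), C.card = 2 * k ∧ (∀ c ∈ C, -c ∈ C) ∧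
      (∀ ξ : ZMod n, ξ ≠ 0 → ‖∑ c ∈ C, (ZMod.stdAddChar (ξ * c) : ℂ)‖ ≤ k) ∧
      (∀ c ∈ C, ∀ c' ∈ C, c - c' ∈ iv n (2 * h) → c = c') ∧ ∀ c ∈ C, c ∉ iv n h := by
  classical
  have hn : (0 : ℝ) < n := by exact_mod_cast Nat.pos_of_ne_zero (NeZero.ne n)
  obtain ⟨a, ha1, ha2, ha3, ha4⟩ := exists_translates (n := n) k (iv n (2 * h)) (iv n h) (by
    refine lt_of_le_of_lt ?_ hsmall
    have h1 : ((iv n (2 * h)).card : ℝ) ≤ 4 * h + 1 := by
      have := iv_card_le (n := n) (2 * h)
      have h2 : ((iv n (2 * h)).card : ℝ) ≤ ((2 * (2 * h) + 1 : ℕ) : ℝ) := by exact_mod_cast this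
      push_cast at h2
      linarith
    have h2 : ((iv n h).card : ℝ) ≤ 2 * h + 1 := by
      have := iv_card_le (n := n) h
      exact_mod_cast this
    gcongr)
  have hD : ∀ x : ZMod n, x ∈ iv n (2 * h) → -x ∈ iv n (2 * h) := fun x hx => iv_neg hx
  have h0 := iv_zero (n := n) (2 * h)
  have hainj : Function.Injective a := by
    intro i j hij
    by_contra hne
    apply ha2 i j hne
    rw [hij, sub_self]; exact h0
  have hdisj : Disjoint (univ.image a) (univ.image fun j => -a j) := by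
    rw [Finset.disjoint_left]
    intro x hx hx'
    simp only [Finset.mem_image, Finset.mem_univ, true_and] at hx hx'
    obtain ⟨i, rfl⟩ := hx
    obtain ⟨j, hj⟩ := hx'
    apply ha3 i j
    rw [← hj, neg_add_cancel]; exact h0
  refine ⟨univ.image a ∪ univ.image fun j => -a j, ?_, ?_, ?_, ?_, ?_⟩
  · rw [Finset.card_union_of_disjoint hdisj, Finset.card_image_of_injective _ hainj,
      Finset.card_image_of_injective _ (fun i j hij => hainj (neg_injective hij))]
    simp; ring
  · intro c hc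
    simp only [Finset.mem_union, Finset.mem_image, Finset.mem_univ, true_and] at hc ⊢
    rcases hc with ⟨j, rfl⟩ | ⟨j, rfl⟩
    · right; exact ⟨j, rfl⟩
    · left; exact ⟨j, (neg_neg _).symm⟩
  · intro ξ hξ
    rw [Finset.sum_union hdisj, Finset.sum_image (fun i _ j _ hij => hainj hij),
      Finset.sum_image (fun i _ j _ hij => hainj (neg_injective hij)), ← Finset.sum_add_distrib]
    have h1 : ∀ j, (ZMod.stdAddChar (ξ * a j) : ℂ) + ZMod.stdAddChar (ξ * -a j) =
        ((2 * cr ξ (a j) : ℝ) : ℂ) := by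
      intro j
      rw [mul_neg, AddChar.map_neg_eq_conj, Complex.add_conj]
      rfl
    simp only [h1]
    rw [← Complex.ofReal_sum, Complex.norm_real, Real.norm_eq_abs, ← Finset.mul_sum, abs_mul,
      abs_two]
    have := ha1 ξ hξ
    linarith
  · intro c hc c' hc' hcc
    simp only [Finset.mem_union, Finset.mem_image, Finset.mem_univ, true_and] at hc hc'
    rcases hc with ⟨i, rfl⟩ | ⟨i, rfl⟩ <;> rcases hc' with ⟨j, rfl⟩ | ⟨j, rfl⟩
    · by_contra hne
      exact ha2 i j (fun h => hne (by rw [h])) hcc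
    · exfalso
      rw [sub_neg_eq_add] at hcc
      exact ha3 i j hcc
    · exfalso
      have := hD _ hcc
      rw [neg_sub, sub_neg_eq_add] at this
      exact ha3 j i this
    · by_contra hne
      have := hD _ hcc
      rw [neg_sub, neg_sub_neg] at this
      exact ha2 i j (fun h => hne (by rw [h])) this
  · intro c hc hcJ
    simp only [Finset.mem_union, Finset.mem_image, Finset.mem_univ, true_and] at hc
    rcases hc with ⟨j, rfl⟩ | ⟨j, rfl⟩
    · exact ha4 j hcJ
    · have := iv_neg hcJ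
      rw [neg_neg] at this
      exact ha4 j this

/-- **The step sets.** -/
theorem exists_sets (k h Q : ℕ) (hk : 1 ≤ k) (hh : 1 ≤ h)
    (hm : (2 * Q + 1) * (2 * h + 1) ≤ n) (hkQ : k < Q)
    (hsmall : 2 * (n : ℝ) * Real.exp (-(k : ℝ) / 8) +
      (3 * (k : ℝ) ^ 2 * (4 * h + 1) + k * (2 * h + 1)) / n < 1) :
    ∃ S₁ S₂ : Finset (ZMod n), Disjoint S₁ S₂ ∧ S₁.card = 2 * k * (2 * h + 1) ∧
      2 * Q ≤ S₂.card + 2 * k ∧ S₂.card ≤ 2 * Q + 1 ∧ S₂.Nonempty ∧
      (∀ x ∈ S₁, -x ∈ S₁) ∧ (∀ x ∈ S₂, -x ∈ S₂) ∧ 0 ∉ S₁ ∧ 0 ∉ S₂ ∧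
      (∃ x ∈ S₁, x + 1 ∈ S₁) ∧
      (∀ ξ : ZMod n, ξ ≠ 0 → ‖∑ s ∈ S₁, (ZMod.stdAddChar (ξ * s) : ℂ)‖ ≤ (S₁.card : ℝ) / 2) ∧
      (∀ f : ZMod n → ℝ, (∀ x, |f x| ≤ 1) → ∀ x, |(U S₁ * U S₂) f x - av f| ≤
        2 * ((2 * k + 1 : ℝ) / (2 * Q + 1)) +
          2 * (((n : ℝ) - (2 * Q + 1) * (2 * h + 1)) / n)) ∧
      (∀ t : ℕ, ∃ E : Finset (ZMod n), (E.card : ℝ) ≤ (2 * k : ℝ) ^ t * (2 * (t * h) + 1) ∧
        (U S₁ ^ t) (fun y => if y ∈ E then 1 else 0) 0 = 1) := by
  classical
  have hn : (0 : ℝ) < n := by exact_mod_cast Nat.pos_of_ne_zero (NeZero.ne n)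
  obtain ⟨C, hC1, hC2, hC3, hC4, hC5⟩ := exists_centres (n := n) k h hsmall
  have h2h : 2 * h < n := by nlinarith
  have hJcard := iv_card (n := n) h2h
  have hPcard := ap_card (n := n) hm
  set J := iv n h with hJ
  set P := ap n Q (2 * h + 1) with hP
  have hCJ : Set.InjOn (fun p : ZMod n × ZMod n => p.1 + p.2)
      (C ×ˢ J : Finset (ZMod n × ZMod n)) := by
    rintro ⟨c, u⟩ hcu ⟨c', u'⟩ hcu' heq
    simp only [Finset.coe_product, Set.mem_prod, Finset.mem_coe] at hcu hcu' heq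
    have h1 : c - c' = u' + -u := by
      rw [sub_eq_iff_eq_add, add_comm, ← add_assoc, ← heq]; ring
    have h2 : c - c' ∈ iv n (2 * h) := by
      rw [h1, two_mul]
      exact iv_add hcu'.2 (iv_neg hcu.2)
    have h3 := hC4 c hcu.1 c' hcu'.1 h2
    subst h3
    have h4 : u = u' := add_left_cancel heq
    rw [h4]
  have hS1card : (C + J).card = 2 * k * (2 * h + 1) := by
    rw [← Finset.image_add_product, Finset.card_image_of_injOn hCJ, Finset.card_product, hC1,
      hJcard]
  -- the second set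
  set S₂ := P.filter (fun x => x ∉ C + J ∧ x ≠ 0) with hS2
  have hS2P : S₂ ⊆ P := Finset.filter_subset _ _
  have hPJ := iv_ap_inj (n := n) hm
  have hbad : (P \ S₂).card ≤ 2 * k + 1 := by
    have h1 : P \ S₂ ⊆ (C.biUnion fun c => P.filter fun x => ∃ u ∈ J, c + u = x) ∪ {0} := by
      intro x hx
      simp only [hS2, Finset.mem_sdiff, Finset.mem_filter, not_and] at hx
      obtain ⟨hxP, hx2⟩ := hx
      rw [Finset.mem_union, Finset.mem_singleton]
      by_cases hx0 : x = 0
      · right; exact hx0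
      · left
        have h3 : x ∈ C + J := by
          by_contra h4
          exact hx2 hxP h4 hx0
        rw [Finset.mem_add] at h3
        obtain ⟨c, hc, u, hu, hcu⟩ := h3
        rw [Finset.mem_biUnion]
        exact ⟨c, hc, Finset.mem_filter.mpr ⟨hxP, u, hu, hcu⟩⟩
    refine (Finset.card_le_card h1).trans ?_
    refine (Finset.card_union_le _ _).trans ?_
    rw [Finset.card_singleton]
    gcongr
    refine (Finset.card_biUnion_le_card_mul _ _ 1 ?_).trans (by rw [hC1, mul_one])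
    intro c _
    rw [Finset.card_le_one]
    intro x hx y hy
    rw [Finset.mem_filter] at hx hy
    obtain ⟨hxP, u, hu, hxu⟩ := hx
    obtain ⟨hyP, v, hv, hyv⟩ := hy
    have h2 : (-u, x) = (-v, y) := by
      apply hPJ
      · simp only [Finset.coe_product, Set.mem_prod, Finset.mem_coe]
        exact ⟨iv_neg hu, hxP⟩
      · simp only [Finset.coe_product, Set.mem_prod, Finset.mem_coe]
        exact ⟨iv_neg hv, hyP⟩
      · simp only
        rw [← hxu, ← hyv]; ring
    exact (Prod.ext_iff.mp h2).2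
  have hS2card : S₂.card + (P \ S₂).card = 2 * Q + 1 := by
    rw [← hPcard, add_comm]
    exact Finset.card_sdiff_add_card_eq_card hS2P
  have hS2ne : S₂.Nonempty := by
    rw [← Finset.card_pos]; omega
  have hCne : C.Nonempty := by rw [← Finset.card_pos]; omega
  have hSJ : ∀ x ∈ C + J, -x ∈ C + J := by
    intro x hx
    rw [Finset.mem_add] at hx ⊢
    obtain ⟨c, hc, u, hu, rfl⟩ := hx
    exact ⟨-c, hC2 c hc, -u, iv_neg hu, by ring⟩
  refine ⟨C + J, S₂, ?_, hS1card, by omega, by omega, hS2ne, hSJ, ?_, ?_, ?_, ?_, ?_, ?_, ?_⟩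
  · rw [Finset.disjoint_left]
    intro x hx hx2
    exact (Finset.mem_filter.mp hx2).2.1 hx
  · intro x hx
    rw [Finset.mem_filter] at hx ⊢
    refine ⟨ap_neg hx.1, ?_, by simpa using hx.2.2⟩
    intro h1
    apply hx.2.1
    have := hSJ _ h1
    rwa [neg_neg] at this
  · intro h0
    rw [Finset.mem_add] at h0
    obtain ⟨c, hc, u, hu, hcu⟩ := h0
    apply hC5 c hc
    have : c = -u := by rw [eq_neg_iff_add_eq_zero]; exact hcu
    rw [this]
    exact iv_neg hu
  · intro h0
    exact (Finset.mem_filter.mp h0).2.2 rfl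
  · obtain ⟨c, hc⟩ := hCne
    refine ⟨c + 0, Finset.add_mem_add hc (iv_zero h), ?_⟩
    have : c + 0 + 1 = c + 1 := by ring
    rw [this]
    refine Finset.add_mem_add hc ?_
    rw [hJ, mem_iv]
    exact ⟨1, by simpa using hh, by simp⟩
  · intro ξ hξ
    have h1 : ∑ s ∈ C + J, (ZMod.stdAddChar (ξ * s) : ℂ) =
        (∑ c ∈ C, (ZMod.stdAddChar (ξ * c) : ℂ)) * ∑ u ∈ J, (ZMod.stdAddChar (ξ * u) : ℂ) := by
      rw [← Finset.image_add_product, Finset.sum_image hCJ, Finset.sum_product,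
        Finset.sum_mul_sum]
      refine Finset.sum_congr rfl fun c _ => Finset.sum_congr rfl fun u _ => ?_
      rw [mul_add, AddChar.map_add_eq_mul]
    rw [h1, norm_mul, hS1card]
    have h2 : ‖∑ u ∈ J, (ZMod.stdAddChar (ξ * u) : ℂ)‖ ≤ 2 * h + 1 := by
      refine (norm_sum_le _ _).trans ?_
      have : ∀ u ∈ J, ‖(ZMod.stdAddChar (ξ * u) : ℂ)‖ = 1 := fun u _ => AddChar.norm_apply _ _
      rw [Finset.sum_congr rfl this]
      simp only [Finset.sum_const, nsmul_eq_mul, mul_one, hJcard]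
      push_cast; exact le_refl _
    calc ‖∑ c ∈ C, (ZMod.stdAddChar (ξ * c) : ℂ)‖ * ‖∑ u ∈ J, (ZMod.stdAddChar (ξ * u) : ℂ)‖
        ≤ k * (2 * h + 1) := mul_le_mul (hC3 ξ hξ) h2 (norm_nonneg _) (by positivity)
      _ = ((2 * k * (2 * h + 1) : ℕ) : ℝ) / 2 := by push_cast; ring
  · intro f hf x
    have hJne : J.Nonempty := ⟨0, iv_zero h⟩
    -- the inner average
    have hinner : ∀ y, |U J (U S₂ f) y - av f| ≤
        2 * ((2 * k + 1 : ℝ) / (2 * Q + 1)) +
          2 * (((n : ℝ) - (2 * Q + 1) * (2 * h + 1)) / n) := by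
      intro y
      have h1 : ∀ z, |(U S₂ f - U P f) z| ≤ 2 * ((2 * k + 1 : ℝ) / (2 * Q + 1)) := by
        intro z
        rw [Pi.sub_apply]
        refine (avg_sub_le hS2P hS2ne f hf z).trans ?_
        rw [hPcard, mul_div_assoc]
        push_cast
        have h2 : (2 * (Q : ℝ) + 1) - S₂.card ≤ 2 * k + 1 := by
          have : (2 * Q + 1 : ℕ) ≤ (2 * k + 1) + S₂.card := by omega
          have : (2 * (Q : ℝ) + 1) ≤ (2 * k + 1) + S₂.card := by exact_mod_cast this
          linarith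
        gcongr
      have h2 : |U J (U S₂ f - U P f) y| ≤ 2 * ((2 * k + 1 : ℝ) / (2 * Q + 1)) :=
        U_abs_le J (by positivity) h1 y
      have h3 : U J (U P f) y = U (J + P) f y := by
        rw [U_add J P hPJ]; rfl
      have hWcard : (J + P).card = (2 * Q + 1) * (2 * h + 1) := by
        rw [← Finset.image_add_product, Finset.card_image_of_injOn hPJ, Finset.card_product,
          hJcard, hPcard, mul_comm]
      have hWne : (J + P).Nonempty := by
        rw [← Finset.card_pos, hWcard]; positivity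
      have h4 := avg_sub_le (Finset.subset_univ (J + P)) hWne f hf y
      rw [U_univ, Finset.card_univ, ZMod.card, hWcard, mul_div_assoc] at h4
      push_cast at h4
      have h5 : U J (U S₂ f) y - av f = U J (U S₂ f - U P f) y + (U (J + P) f y - av f) := by
        rw [map_sub, Pi.sub_apply, h3]; ring
      rw [h5]
      exact (abs_add_le _ _).trans (add_le_add h2 h4)
    have h6 : (U (C + J) * U S₂) f x = U C (U J (U S₂ f)) x := by
      rw [U_add C J hCJ]; rfl
    have h7 : U C (U J (U S₂ f)) x - av f = U C (fun y => U J (U S₂ f) y - av f) x := by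
      rw [U_apply, U_apply, Finset.sum_sub_distrib, sub_div]
      congr 1
      rw [Finset.sum_const, nsmul_eq_mul]
      have : (0 : ℝ) < C.card := by exact_mod_cast hCne.card_pos
      field_simp
    rw [h6, h7]
    exact U_abs_le C ((abs_nonneg _).trans (hinner x)) hinner x
  · intro t
    refine ⟨t • C + iv n (t * h), ?_, ?_⟩
    · have h1 : (t • C + iv n (t * h)).card ≤ (2 * k) ^ t * (2 * (t * h) + 1) := by
        refine Finset.card_add_le.trans ?_
        refine Nat.mul_le_mul ?_ (iv_card_le _)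
        rw [← hC1]
        exact Finset.card_nsmul_le
      exact_mod_cast h1
    · have hkey : ∀ (t : ℕ) (f : ZMod n → ℝ) (x : ZMod n),
          (∀ y ∈ t • C + iv n (t * h), f (x + y) = 1) → (U (C + J) ^ t) f x = 1 := by
        intro t
        induction t with
        | zero =>
          intro f x hf
          have := hf 0 (by
            rw [zero_smul, zero_add, zero_mul]
            exact iv_zero 0)
          simpa using this
        | succ t ih =>
          intro f x hf
          rw [pow_succ, Module.End.mul_apply]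
          apply ih
          intro y hy
          rw [U_apply]
          have h1 : ∀ s ∈ C + J, f (x + y + s) = 1 := by
            intro s hs
            rw [add_assoc]
            apply hf
            rw [Finset.mem_add] at hy hs ⊢
            obtain ⟨c, hc, u, hu, rfl⟩ := hy
            obtain ⟨c', hc', u', hu', rfl⟩ := hs
            refine ⟨c + c', ?_, u + u', ?_, by ring⟩
            · rw [succ_nsmul]; exact Finset.add_mem_add hc hc'
            · rw [add_mul, one_mul]; exact iv_add hu hu'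
          rw [Finset.sum_congr rfl h1]
          simp only [Finset.sum_const, nsmul_eq_mul, mul_one]
          have : (0 : ℝ) < (C + J).card := by
            rw [hS1card]; positivity
          field_simp
      apply hkey
      intro y hy
      simp only [zero_add, if_pos hy]

end

end Pool.Agent.L5helper97.Cyc
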