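import Pool.Agent.L5helper97.Cyc.Defs
import Pool.Agent.L5helper97.Cyc.Sets

/-!
Simple random walks on the cycle: total variation bounds.
-/

open Finset Filter Topology

namespace Pool.Agent.L5helper97.Cyc

noncomputable section

variable {n : ℕ} [NeZero n]

theorem card_pos' : (0 : ℝ) < n := by exact_mod_cast Nat.pos_of_ne_zero (NeZero.ne n)

theorem sum_unifOn_mul (S : Finset (ZMod n)) (f : ZMod n → ℝ) (x : ZMod n) :
    ∑ y, unifOn S (y - x) * f y = U S f x := by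
  rw [← Equiv.sum_comp (Equiv.addLeft x), U_apply]
  simp only [Equiv.coe_addLeft, add_sub_cancel_left, unifOn, ite_mul, zero_mul]
  rw [Finset.sum_ite_mem, Finset.univ_inter, Finset.sum_div]
  refine Finset.sum_congr rfl fun s _ => ?_
  ring

theorem sum_convPow_mul (S : Finset (ZMod n)) (t : ℕ) (f : ZMod n → ℝ) :
    ∑ y, convPow (unifOn S) t y * f y = (U S ^ t) f 0 := by
  induction t generalizing f with
  | zero => simp [convPow]
  | succ t ih =>
    simp only [convPow]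
    have h1 : ∑ y, (∑ x, convPow (unifOn S) t x * unifOn S (y - x)) * f y =
        ∑ x, convPow (unifOn S) t x * U S f x := by
      simp only [← sum_unifOn_mul, Finset.sum_mul, Finset.mul_sum]
      rw [Finset.sum_comm]
      refine Finset.sum_congr rfl fun x _ => Finset.sum_congr rfl fun y _ => ?_
      ring
    rw [h1, ih, pow_succ, Module.End.mul_apply]

omit [NeZero n] in
theorem U_one (S : Finset (ZMod n)) (hS : S.Nonempty) : U S (fun _ => (1 : ℝ)) = fun _ => 1 := by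
  ext x
  rw [U_apply]
  simp only [Finset.sum_const, nsmul_eq_mul, mul_one]
  have : (0 : ℝ) < S.card := by exact_mod_cast hS.card_pos
  field_simp

omit [NeZero n] in
theorem U_pow_one (S : Finset (ZMod n)) (hS : S.Nonempty) (t : ℕ) :
    (U S ^ t) (fun _ => (1 : ℝ)) = fun _ => 1 := by
  induction t with
  | zero => simp
  | succ t ih => rw [pow_succ', Module.End.mul_apply, ih, U_one S hS]

theorem sum_convPow (S : Finset (ZMod n)) (hS : S.Nonempty) (t : ℕ) :
    ∑ y, convPow (unifOn S) t y = 1 := by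
  have := sum_convPow_mul S t (fun _ => 1)
  rw [U_pow_one S hS] at this
  simpa using this

theorem sum_unifOn (S : Finset (ZMod n)) (hS : S.Nonempty) : ∑ y, unifOn S y = 1 := by
  have := sum_unifOn_mul S (fun _ => 1) 0
  rw [U_one S hS] at this
  simpa using this

theorem dTV_succ_le (S : Finset (ZMod n)) (hS : S.Nonempty) (t : ℕ) :
    dTV (unifOn S) (t + 1) ≤ dTV (unifOn S) t := by
  have hn := card_pos' (n := n)
  unfold dTV
  gcongr (1 / 2 : ℝ) * ?_
  have hu : ∀ z, 0 ≤ unifOn S z := by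
    intro z; unfold unifOn; split_ifs <;> positivity
  have h1 : ∀ y, ∑ x, unifOn S (y - x) = 1 := by
    intro y
    rw [← sum_unifOn S hS]
    exact Equiv.sum_comp (Equiv.subLeft y) (unifOn S)
  have h2 : ∀ x, ∑ y, unifOn S (y - x) = 1 := by
    intro x
    rw [← sum_unifOn S hS]
    exact Equiv.sum_comp (Equiv.subRight x) (unifOn S)
  have h3 : ∀ y, convPow (unifOn S) (t + 1) y - 1 / (n : ℝ) =
      ∑ x, (convPow (unifOn S) t x - 1 / (n : ℝ)) * unifOn S (y - x) := by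
    intro y
    simp only [sub_mul, Finset.sum_sub_distrib, ← Finset.mul_sum, h1, mul_one]
    rfl
  calc ∑ y, |convPow (unifOn S) (t + 1) y - 1 / (n : ℝ)|
      ≤ ∑ y, ∑ x, |convPow (unifOn S) t x - 1 / (n : ℝ)| * unifOn S (y - x) := by
        refine Finset.sum_le_sum fun y _ => ?_
        rw [h3]
        refine (Finset.abs_sum_le_sum_abs _ _).trans_eq ?_
        refine Finset.sum_congr rfl fun x _ => ?_
        rw [abs_mul, abs_of_nonneg (hu _)]
    _ = ∑ x, |convPow (unifOn S) t x - 1 / (n : ℝ)| := by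
        rw [Finset.sum_comm]
        refine Finset.sum_congr rfl fun x _ => ?_
        rw [← Finset.mul_sum, h2, mul_one]

theorem dTV_antitone (S : Finset (ZMod n)) (hS : S.Nonempty) : Antitone (dTV (unifOn S)) :=
  antitone_nat_of_succ_le (dTV_succ_le S hS)

theorem dTV_ge (S : Finset (ZMod n)) (hS : S.Nonempty) (t : ℕ) (E : Finset (ZMod n)) :
    (U S ^ t) (fun y => if y ∈ E then 1 else 0) 0 - (E.card : ℝ) / n ≤ dTV (unifOn S) t := by
  have hn := card_pos' (n := n)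
  set q : ZMod n → ℝ := fun y => convPow (unifOn S) t y - 1 / (n : ℝ) with hq
  have h1 : ∑ y, q y = 0 := by
    simp only [hq, Finset.sum_sub_distrib, sum_convPow S hS]
    simp [ZMod.card]
  have h2 : (U S ^ t) (fun y => if y ∈ E then 1 else 0) 0 - (E.card : ℝ) / n =
      ∑ y, q y * (if y ∈ E then (1 : ℝ) else 0) := by
    rw [← sum_convPow_mul]
    simp only [hq, sub_mul, Finset.sum_sub_distrib, ← Finset.mul_sum]
    simp
    ring
  have h3 : ∑ y, q y * (2 * (if y ∈ E then (1 : ℝ) else 0) - 1) ≤ ∑ y, |q y| := by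
    apply Finset.sum_le_sum
    intro y _
    split_ifs
    · have := le_abs_self (q y); linarith
    · have := neg_abs_le (q y); linarith
  have h4 : ∑ y, q y * (2 * (if y ∈ E then (1 : ℝ) else 0) - 1) =
      2 * ∑ y, q y * (if y ∈ E then (1 : ℝ) else 0) := by
    have : ∀ y, q y * (2 * (if y ∈ E then (1 : ℝ) else 0) - 1) =
        2 * (q y * (if y ∈ E then (1 : ℝ) else 0)) - q y := fun y => by ring
    simp only [this, Finset.sum_sub_distrib, h1, ← Finset.mul_sum, sub_zero]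
  rw [h2]
  change _ ≤ (1 / 2 : ℝ) * ∑ y, |q y|
  linarith

theorem dTV_le (S : Finset (ZMod n)) (t : ℕ) (b : ℝ)
    (h : ∀ f : ZMod n → ℝ, (∀ x, |f x| ≤ 1) → |(U S ^ t) f 0 - av f| ≤ 2 * b) :
    dTV (unifOn S) t ≤ b := by
  have hn := card_pos' (n := n)
  set q : ZMod n → ℝ := fun y => convPow (unifOn S) t y - 1 / (n : ℝ) with hq
  let f : ZMod n → ℝ := fun y => if 0 ≤ q y then 1 else -1
  have hf : ∀ x, |f x| ≤ 1 := by
    intro x; simp only [f]; split_ifs <;> simp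
  have h1 : ∑ y, |q y| = (U S ^ t) f 0 - av f := by
    rw [← sum_convPow_mul, av, ZMod.card, Finset.sum_div, ← Finset.sum_sub_distrib]
    refine Finset.sum_congr rfl fun y _ => ?_
    have : convPow (unifOn S) t y * f y - f y / n = q y * f y := by
      simp only [hq]; ring
    rw [this]
    simp only [f]
    split_ifs with h0
    · rw [abs_of_nonneg h0, mul_one]
    · rw [abs_of_neg (not_le.mp h0)]; ring
  have h2 := h f hf
  have h3 := le_abs_self ((U S ^ t) f 0 - av f)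
  change (1 / 2 : ℝ) * ∑ y, |q y| ≤ b
  linarith

/-- the character values -/
theorem char_eq (j x : ZMod n) :
    Complex.exp (2 * Real.pi * Complex.I * ((j.val : ℂ) * (x.val : ℂ)) / (n : ℂ)) =
      ZMod.stdAddChar (j * x) := by
  have h : (j * x : ZMod n) = (((j.val * x.val : ℕ) : ℤ) : ZMod n) := by
    push_cast
    rw [ZMod.natCast_zmod_val, ZMod.natCast_zmod_val]
  rw [h, ZMod.stdAddChar_coe]
  push_cast
  ring_nf

theorem eig_eq (S : Finset (ZMod n)) (j : ZMod n) :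
    eig (unifOn S) j = (∑ s ∈ S, (ZMod.stdAddChar (j * s) : ℂ)) / S.card := by
  unfold eig
  simp only [char_eq, unifOn]
  have : ∀ x : ZMod n, ((if x ∈ S then 1 / (S.card : ℝ) else 0 : ℝ) : ℂ) *
      (ZMod.stdAddChar (j * x) : ℂ) = if x ∈ S then (ZMod.stdAddChar (j * x) : ℂ) / S.card else 0 := by
    intro x
    split_ifs
    · push_cast; ring
    · simp
  simp only [this]
  rw [Finset.sum_ite_mem, Finset.univ_inter, Finset.sum_div]

omit [NeZero n] in
/-- The walk on the union of two disjoint sets. -/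
theorem U_union (S₁ S₂ : Finset (ZMod n)) (hd : Disjoint S₁ S₂) (h1 : S₁.Nonempty)
    (h2 : S₂.Nonempty) :
    U (S₁ ∪ S₂) = ((S₁.card : ℝ) / (S₁ ∪ S₂).card) • U S₁ +
      ((S₂.card : ℝ) / (S₁ ∪ S₂).card) • U S₂ := by
  have h1' : (0 : ℝ) < S₁.card := by exact_mod_cast h1.card_pos
  have h2' : (0 : ℝ) < S₂.card := by exact_mod_cast h2.card_pos
  refine LinearMap.ext fun f => funext fun x => ?_
  have e : ((((S₁.card : ℝ) / (S₁ ∪ S₂).card) • U S₁ +
      ((S₂.card : ℝ) / (S₁ ∪ S₂).card) • U S₂) f) x =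
      ((S₁.card : ℝ) / (S₁ ∪ S₂).card) * U S₁ f x +
        ((S₂.card : ℝ) / (S₁ ∪ S₂).card) * U S₂ f x := rfl
  rw [e, U_apply, U_apply, U_apply, Finset.sum_union hd]
  have : (0 : ℝ) < (S₁ ∪ S₂).card := by
    exact_mod_cast (h1.mono Finset.subset_union_left).card_pos
  field_simp

omit [NeZero n] in
theorem U_nonneg (S : Finset (ZMod n)) {f : ZMod n → ℝ} (h : ∀ x, 0 ≤ f x) (x : ZMod n) :
    0 ≤ U S f x := by
  rw [U_apply]
  exact div_nonneg (Finset.sum_nonneg fun s _ => h _) (by positivity)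

omit [NeZero n] in
theorem pow_ge (S₁ S₂ : Finset (ZMod n)) (w₁ w₂ : ℝ) (hw1 : 0 ≤ w₁) (hw2 : 0 ≤ w₂)
    (W : Module.End ℝ (ZMod n → ℝ)) (hW : W = w₁ • U S₁ + w₂ • U S₂) (f : ZMod n → ℝ)
    (hf : ∀ x, 0 ≤ f x) (t : ℕ) (x : ZMod n) :
    0 ≤ (U S₁ ^ t) f x ∧ w₁ ^ t * (U S₁ ^ t) f x ≤ (W ^ t) f x := by
  have hWa : ∀ r : ZMod n → ℝ, ∀ x, W r x = w₁ * U S₁ r x + w₂ * U S₂ r x := by
    intro r x; rw [hW]; rfl
  induction t generalizing x with
  | zero => simpa using hf x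
  | succ t ih =>
    rw [pow_succ', pow_succ', pow_succ', Module.End.mul_apply, Module.End.mul_apply]
    have hnn : ∀ x, 0 ≤ (U S₁ ^ t) f x := fun x => (ih x).1
    refine ⟨U_nonneg S₁ hnn x, ?_⟩
    rw [hWa]
    have h1 : w₁ ^ t * U S₁ ((U S₁ ^ t) f) x ≤ U S₁ ((W ^ t) f) x := by
      have h2 : w₁ ^ t * U S₁ ((U S₁ ^ t) f) x = U S₁ (w₁ ^ t • (U S₁ ^ t) f) x := by
        rw [map_smul]; rfl
      rw [h2, ← sub_nonneg]
      have h3 : U S₁ ((W ^ t) f) x - U S₁ (w₁ ^ t • (U S₁ ^ t) f) x =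
          U S₁ ((W ^ t) f - w₁ ^ t • (U S₁ ^ t) f) x := by rw [map_sub]; rfl
      rw [h3]
      apply U_nonneg
      intro y
      have := (ih y).2
      simp only [Pi.sub_apply, Pi.smul_apply, smul_eq_mul]
      linarith
    have h4 : 0 ≤ U S₂ ((W ^ t) f) x := by
      apply U_nonneg
      intro y
      have := ih y
      exact (mul_nonneg (pow_nonneg hw1 _) this.1).trans this.2
    calc w₁ * w₁ ^ t * U S₁ ((U S₁ ^ t) f) x = w₁ * (w₁ ^ t * U S₁ ((U S₁ ^ t) f) x) := by ring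
      _ ≤ w₁ * U S₁ ((W ^ t) f) x := by gcongr
      _ ≤ w₁ * U S₁ ((W ^ t) f) x + w₂ * U S₂ ((W ^ t) f) x := by
          have := mul_nonneg hw2 h4
          linarith

/-- **The walks, for a fixed length of the cycle.** -/
theorem exists_walk (k h Q : ℕ) (hk : 1 ≤ k) (hh : 1 ≤ h)
    (hm : (2 * Q + 1) * (2 * h + 1) ≤ n) (hkQ : k < Q)
    (hsmall : 2 * (n : ℝ) * Real.exp (-(k : ℝ) / 8) +
      (3 * (k : ℝ) ^ 2 * (4 * h + 1) + k * (2 * h + 1)) / n < 1)
    (hw : 3 * (2 * Q + 1) ≤ 2 * k * (2 * h + 1)) :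
    ∃ (S : Finset (ZMod n)) (T : ℝ), S.Nonempty ∧ (∀ x ∈ S, -x ∈ S) ∧ 0 ∉ S ∧
      Ergodic (unifOn S) ∧ 0 < trel (unifOn S) ∧ trel (unifOn S) ≤ 4 ∧
      (2 * k * (2 * h + 1) : ℝ) / (2 * Q + 1) ≤ T ∧
      T ≤ 1 + (2 * k * (2 * h + 1) : ℝ) / (2 * (Q - k)) ∧
      (∀ t : ℕ, (1 - 1 / T) ^ t - (2 * k : ℝ) ^ t * (2 * (t * h) + 1) / n ≤ dTV (unifOn S) t) ∧
      (∀ t : ℕ, 1 ≤ t → dTV (unifOn S) t ≤ (1 - 1 / T) ^ t + (1 / T) ^ t +
        ((2 * k + 1 : ℝ) / (2 * Q + 1) + ((n : ℝ) - (2 * Q + 1) * (2 * h + 1)) / n)) := by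
  have hn := card_pos' (n := n)
  obtain ⟨S₁, S₂, hd, hc1, hc2, hc2', hne2, hneg1, hneg2, h01, h02, hcons, hchar, hmix, hsupp⟩ :=
    exists_sets (n := n) k h Q hk hh hm hkQ hsmall
  have hne1 : S₁.Nonempty := by
    rw [← Finset.card_pos, hc1]; positivity
  have hcu : (S₁ ∪ S₂).card = S₁.card + S₂.card := Finset.card_union_of_disjoint hd
  have hne : (S₁ ∪ S₂).Nonempty := hne1.mono Finset.subset_union_left
  have c1 : (0 : ℝ) < S₁.card := by exact_mod_cast hne1.card_pos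
  have c2 : (0 : ℝ) < S₂.card := by exact_mod_cast hne2.card_pos
  have hcur : ((S₁ ∪ S₂).card : ℝ) = S₁.card + S₂.card := by exact_mod_cast hcu
  have hc1r : (S₁.card : ℝ) = 2 * k * (2 * h + 1) := by rw [hc1]; push_cast; ring
  have hc2r : (S₂.card : ℝ) ≤ 2 * Q + 1 := by exact_mod_cast hc2'
  have hc2l : 2 * ((Q : ℝ) - k) ≤ S₂.card := by
    have : (2 * Q : ℝ) ≤ S₂.card + 2 * k := by exact_mod_cast hc2
    linarith
  have hQk : (0 : ℝ) < 2 * ((Q : ℝ) - k) := by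
    have : (k : ℝ) < Q := by exact_mod_cast hkQ
    linarith
  set w₁ : ℝ := (S₁.card : ℝ) / (S₁ ∪ S₂).card with hw1
  set w₂ : ℝ := (S₂.card : ℝ) / (S₁ ∪ S₂).card with hw2
  have hcpos : (0 : ℝ) < (S₁ ∪ S₂).card := by rw [hcur]; positivity
  have hw12 : w₁ + w₂ = 1 := by
    rw [hw1, hw2, ← add_div, ← hcur, div_self hcpos.ne']
  have hw1n : 0 ≤ w₁ := by positivity
  have hw2p : 0 < w₂ := by positivity
  have hw4 : w₂ ≤ 1 / 4 := by
    rw [hw2, hcur, div_le_div_iff₀ (by positivity) (by norm_num)]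
    have : (3 * (2 * Q + 1) : ℝ) ≤ 2 * k * (2 * h + 1) := by exact_mod_cast hw
    rw [← hc1r] at this
    linarith
  have hUd := U_union S₁ S₂ hd hne1 hne2
  rw [← hw1, ← hw2] at hUd
  refine ⟨S₁ ∪ S₂, 1 / w₂, hne, ?_, ?_, ?_, ?_⟩
  · intro x hx
    rw [Finset.mem_union] at hx ⊢
    exact hx.imp (hneg1 x) (hneg2 x)
  · rw [Finset.mem_union]; tauto
  · -- ergodic
    intro H a hHa
    obtain ⟨x, hx, hx1⟩ := hcons
    have hsup : ∀ y ∈ S₁, unifOn (S₁ ∪ S₂) y ≠ 0 := by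
      intro y hy
      rw [unifOn, if_pos (Finset.mem_union_left _ hy)]
      exact (one_div_pos.mpr hcpos).ne'
    have e1 := hHa x (hsup x hx)
    have e2 := hHa (x + 1) (hsup _ hx1)
    have e3 := H.sub_mem e2 e1
    have e4 : x + 1 - a - (x - a) = 1 := by ring
    rw [e4] at e3
    rw [eq_top_iff]
    intro y _
    have : y = y.val • (1 : ZMod n) := by simp
    rw [this]
    exact H.nsmul_mem e3 _
  -- spectral bound
  have hsp : (⨆ j : {j : ZMod n // j ≠ 0}, ‖eig (unifOn (S₁ ∪ S₂)) j‖) ≤ 3 / 4 := by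
    apply Real.iSup_le _ (by norm_num)
    rintro ⟨j, hj⟩
    simp only
    rw [eig_eq, norm_div, Complex.norm_natCast, div_le_iff₀ hcpos, Finset.sum_union hd]
    have e1 : ‖∑ s ∈ S₂, (ZMod.stdAddChar (j * s) : ℂ)‖ ≤ S₂.card := by
      refine (norm_sum_le _ _).trans ?_
      have : ∀ u ∈ S₂, ‖(ZMod.stdAddChar (j * u) : ℂ)‖ = 1 := fun u _ => AddChar.norm_apply _ _
      rw [Finset.sum_congr rfl this]
      simp
    refine (norm_add_le _ _).trans ?_
    have e2 := hchar j hj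
    rw [hw2, div_le_iff₀ hcpos] at hw4
    rw [hcur] at hw4 ⊢
    linarith
  have hgap : 1 / 4 ≤ gap (unifOn (S₁ ∪ S₂)) := by
    unfold gap; linarith
  refine ⟨one_div_pos.mpr (by linarith), ?_, ?_, ?_, ?_, ?_⟩
  · rw [trel, div_le_iff₀ (by linarith)]; linarith
  · rw [hw2, one_div_div, hcur, ← hc1r, div_le_div_iff₀ (by positivity) c2]
    nlinarith [c1, c2]
  · rw [hw2, one_div_div, hcur, ← hc1r, add_div, div_self c2.ne', add_comm]
    gcongr
  · intro t
    obtain ⟨E, hE1, hE2⟩ := hsupp t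
    have e1 := dTV_ge (S₁ ∪ S₂) hne t E
    have e2 := (pow_ge S₁ S₂ w₁ w₂ hw1n hw2p.le _ hUd (fun y => if y ∈ E then 1 else 0)
      (fun y => by split_ifs <;> norm_num) t 0).2
    rw [hE2, mul_one] at e2
    have e3 : 1 - 1 / (1 / w₂) = w₁ := by rw [one_div_one_div]; linarith
    rw [e3]
    have e4 : (E.card : ℝ) / n ≤ (2 * k : ℝ) ^ t * (2 * (t * h) + 1) / n := by gcongr
    linarith
  · intro t ht
    apply dTV_le
    intro f hf
    obtain ⟨t', rfl⟩ := Nat.exists_eq_add_of_le ht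
    rw [add_comm 1 t']
    have e3 : 1 - 1 / (1 / w₂) = w₁ := by rw [one_div_one_div]; linarith
    rw [e3, one_div_one_div]
    set e : ℝ := 2 * ((2 * k + 1 : ℝ) / (2 * Q + 1)) +
      2 * (((n : ℝ) - (2 * Q + 1) * (2 * h + 1)) / n) with he
    have he0 : 0 ≤ e := (abs_nonneg _).trans (hmix f hf 0)
    have e5 := mixture S₁ S₂ hne1 hne2 w₁ w₂ hw1n hw2p.le hw12 e hmix _ hUd f hf t' 0
    have b1 : |(U S₁ ^ (t' + 1)) f 0 - av f| ≤ 2 := by
      refine (abs_sub _ _).trans ?_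
      have := U_pow_abs_le S₁ zero_le_one hf (t' + 1) 0
      have := av_abs_le hf
      linarith
    have b2 : |(U S₂ ^ (t' + 1)) f 0 - av f| ≤ 2 := by
      refine (abs_sub _ _).trans ?_
      have := U_pow_abs_le S₂ zero_le_one hf (t' + 1) 0
      have := av_abs_le hf
      linarith
    set p₁ := w₁ ^ (t' + 1) with hp1
    set p₂ := w₂ ^ (t' + 1) with hp2
    have hp1n : 0 ≤ p₁ := pow_nonneg hw1n _
    have hp2n : 0 ≤ p₂ := pow_nonneg hw2p.le _
    set A := (U S₁ ^ (t' + 1)) f 0 - av f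
    set B := (U S₂ ^ (t' + 1)) f 0 - av f
    have e6 : (U (S₁ ∪ S₂) ^ (t' + 1)) f 0 - av f =
        ((U (S₁ ∪ S₂) ^ (t' + 1)) f 0 - av f - p₁ * A - p₂ * B) + (p₁ * A + p₂ * B) := by ring
    rw [e6]
    refine (abs_add_le _ _).trans ?_
    have e7 : |p₁ * A + p₂ * B| ≤ p₁ * 2 + p₂ * 2 := by
      refine (abs_add_le _ _).trans ?_
      rw [abs_mul, abs_mul, abs_of_nonneg hp1n, abs_of_nonneg hp2n]
      gcongr
    have e8 : e * (1 - p₁ - p₂) ≤ e := by nlinarith
    have e9 : e = 2 * ((2 * k + 1 : ℝ) / (2 * Q + 1) +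
        ((n : ℝ) - (2 * Q + 1) * (2 * h + 1)) / n) := by rw [he]; ring
    linarith

end

end Pool.Agent.L5helper97.Cyc
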